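import Pool.Agent.OQM.St

/-!
# OneBranch, clause on `p = 5`: `K` abelian over `k` and over `ℚ(√5)` (helper84)
-/

set_option autoImplicit false

open NumberField IntermediateField

namespace Pool.Agent.MuBr

namespace AB5

/-- Automorphisms over `k` as automorphisms over `ℚ`. -/
noncomputable def toQ {k K : IntermediateField ℚ ℂ} (h : k ≤ K) :
    ((extendScalars h) ≃ₐ[k] (extendScalars h)) →* (K ≃ₐ[ℚ] K) where
  toFun s :=
    { toFun := fun x => ⟨(s ⟨x.1, x.2⟩).1, (s ⟨x.1, x.2⟩).2⟩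
      invFun := fun x => ⟨(s.symm ⟨x.1, x.2⟩).1, (s.symm ⟨x.1, x.2⟩).2⟩
      left_inv := fun x => Subtype.ext (congrArg Subtype.val (s.symm_apply_apply ⟨x.1, x.2⟩))
      right_inv := fun x => Subtype.ext (congrArg Subtype.val (s.apply_symm_apply ⟨x.1, x.2⟩))
      map_mul' := fun x y => Subtype.ext (congrArg Subtype.val (map_mul s
        (⟨x.1, x.2⟩ : extendScalars h) ⟨y.1, y.2⟩))
      map_add' := fun x y => Subtype.ext (congrArg Subtype.val (map_add s
        (⟨x.1, x.2⟩ : extendScalars h) ⟨y.1, y.2⟩))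
      commutes' := fun r => Subtype.ext (by
        have h1 := s.commutes (algebraMap ℚ k r)
        exact congrArg Subtype.val h1) }
  map_one' := rfl
  map_mul' _ _ := rfl

lemma toQ_val {k K : IntermediateField ℚ ℂ} (h : k ≤ K)
    (s : (extendScalars h) ≃ₐ[k] (extendScalars h)) (x : K) :
    ((toQ h s x : K) : ℂ) = (s ⟨x.1, x.2⟩ : extendScalars h) := rfl

lemma toQ_inj {k K : IntermediateField ℚ ℂ} (h : k ≤ K) : Function.Injective (toQ h) := by
  intro s t hst
  apply AlgEquiv.ext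
  intro x
  apply Subtype.ext
  have h1 : toQ h s ⟨x.1, x.2⟩ = toQ h t ⟨x.1, x.2⟩ := by rw [hst]
  exact congrArg Subtype.val h1

lemma conj_sqrt (w : ℂ) (hw5 : w ^ 2 = 5) : (starRingEnd ℂ) w = w := by
  have e1 : ((starRingEnd ℂ) w) ^ 2 = w ^ 2 := by
    rw [← map_pow, hw5]
    exact Complex.conj_ofNat 5
  rcases sq_eq_sq_iff_eq_or_eq_neg.1 e1 with e2 | e2
  · exact e2
  · exfalso
    have e3 := Complex.mul_conj w
    rw [e2, mul_neg, ← pow_two, hw5] at e3
    have e4 : (-5 : ℝ) = Complex.normSq w := by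
      have := congrArg Complex.re e3
      simpa using this
    have e5 := Complex.normSq_nonneg w
    linarith

lemma conj_adj {w : ℂ} (hw5 : w ^ 2 = 5) : ∀ x ∈ adjoin ℚ {w}, (starRingEnd ℂ) x = x := by
  intro x hx
  refine adjoin_induction ℚ (p := fun x _ => (starRingEnd ℂ) x = x) ?_ ?_ ?_ ?_ ?_ hx
  · intro y hy
    rw [Set.mem_singleton_iff.1 hy]
    exact conj_sqrt w hw5
  · intro r
    show (starRingEnd ℂ) (algebraMap ℚ ℂ r) = algebraMap ℚ ℂ r
    rw [eq_ratCast (algebraMap ℚ ℂ) r, map_ratCast]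
  · intro a b _ _ ha hb
    rw [map_add, ha, hb]
  · intro a _ ha
    rw [map_inv₀, ha]
  · intro a b _ _ ha hb
    rw [map_mul, ha, hb]

lemma conj_mem {w : ℂ} (hw5 : w ^ 2 = 5) {K : IntermediateField ℚ ℂ} (hw : adjoin ℚ {w} ≤ K)
    (hf : FinAb hw) : ∀ x ∈ K, (starRingEnd ℂ) x ∈ K := by
  intro x hx
  have hg := hf.gal
  have hn : Normal (adjoin ℚ {w}) (extendScalars hw) := hg.to_normal
  let c : ℂ →ₐ[adjoin ℚ {w}] ℂ :=
    { starRingEnd ℂ with commutes' := fun r => conj_adj hw5 r r.2 }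
  have h3 : (c.comp (extendScalars hw).val).fieldRange = extendScalars hw :=
    AlgHom.fieldRange_of_normal _
  have h4 : c x ∈ (c.comp (extendScalars hw).val).fieldRange := ⟨⟨x, hx⟩, rfl⟩
  rw [h3] at h4
  exact h4

/-- An imaginary quadratic field. -/
lemma quad {k : IntermediateField ℚ ℂ} (hk : ImQuadratic k) : ∃ m ∈ k, ∃ a b : ℚ,
    m ^ 2 = a + b * m ∧ (starRingEnd ℂ) m = b - m ∧ (starRingEnd ℂ) m ≠ m ∧
    ∀ x ∈ k, ∃ s t : ℚ, x = s + t * m := by
  obtain ⟨m, hm, hne⟩ := hk.imag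
  let M : k := ⟨m, hm⟩
  have hfd : FiniteDimensional ℚ k :=
    Module.finite_of_finrank_pos (by rw [hk.deg]; norm_num)
  have hli : LinearIndependent ℚ ![(1 : k), M] := by
    rw [LinearIndependent.pair_iff]
    intro s t hst
    have h1 : (s : ℂ) + (t : ℂ) * m = 0 := by
      have h2 := congrArg Subtype.val hst
      have h3 : ((s • (1 : k) + t • M : k) : ℂ) = (s : ℂ) + (t : ℂ) * m := by
        rw [IntermediateField.coe_add, IntermediateField.coe_smul, IntermediateField.coe_smul,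
          Rat.smul_def, Rat.smul_def]
        simp [M]
      rw [h3] at h2
      simpa using h2
    have ht : t = 0 := by
      by_contra ht
      apply hne
      have h2 : m = ((-s / t : ℚ) : ℂ) := by
        have ht' : (t : ℂ) ≠ 0 := by exact_mod_cast ht
        push_cast
        field_simp
        linear_combination h1
      rw [h2, map_ratCast]
    refine ⟨?_, ht⟩
    rw [ht] at h1
    simpa using h1
  have hspan : ∀ x ∈ k, ∃ s t : ℚ, x = s + t * m := by
    intro x hx
    have h1 : Submodule.span ℚ (Set.range ![(1 : k), M]) = ⊤ :=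
      hli.span_eq_top_of_card_eq_finrank' (by rw [hk.deg]; simp)
    have h2 : (⟨x, hx⟩ : k) ∈ Submodule.span ℚ (Set.range ![(1 : k), M]) := by
      rw [h1]
      exact Submodule.mem_top
    rw [Matrix.range_cons, Matrix.range_cons, Matrix.range_empty, Set.union_empty,
      Set.singleton_union, Submodule.mem_span_pair] at h2
    obtain ⟨s, t, hst⟩ := h2
    refine ⟨s, t, ?_⟩
    have h3 := congrArg Subtype.val hst
    rw [IntermediateField.coe_add, IntermediateField.coe_smul, IntermediateField.coe_smul,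
      Rat.smul_def, Rat.smul_def] at h3
    have h5 : x = (s : ℂ) * ((1 : k) : ℂ) + (t : ℂ) * (M : ℂ) := h3.symm
    rw [h5]
    simp [M]
  obtain ⟨a, b, hab⟩ := hspan (m ^ 2) (pow_mem hm 2)
  refine ⟨m, hm, a, b, hab, ?_, hne, hspan⟩
  have h1 : ((starRingEnd ℂ) m) ^ 2 = a + b * (starRingEnd ℂ) m := by
    rw [← map_pow, hab, map_add, map_mul, map_ratCast, map_ratCast]
  have h2 : ((starRingEnd ℂ) m - m) * ((starRingEnd ℂ) m - (b - m)) = 0 := by
    linear_combination h1 - hab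
  rcases mul_eq_zero.1 h2 with h3 | h3
  · exact absurd (sub_eq_zero.1 h3) hne
  · exact sub_eq_zero.1 h3

/-- Automorphisms which fix `√5` commute. -/
lemma comm_w {w : ℂ} {K : IntermediateField ℚ ℂ} (hw : adjoin ℚ {w} ≤ K)
    (hf : FinAb hw) (σ τ : K ≃ₐ[ℚ] K)
    (hσ : σ ⟨w, hw (mem_adjoin_simple_self ℚ w)⟩ = ⟨w, hw (mem_adjoin_simple_self ℚ w)⟩)
    (hτ : τ ⟨w, hw (mem_adjoin_simple_self ℚ w)⟩ = ⟨w, hw (mem_adjoin_simple_self ℚ w)⟩) :
    σ * τ = τ * σ := by
  have key : ∀ ρ : K ≃ₐ[ℚ] K,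
      ρ ⟨w, hw (mem_adjoin_simple_self ℚ w)⟩ = ⟨w, hw (mem_adjoin_simple_self ℚ w)⟩ →
      ∃ r : (extendScalars hw) ≃ₐ[adjoin ℚ {w}] (extendScalars hw), toQ hw r = ρ := by
    intro ρ hρ
    have hfix : ∀ x (hx : x ∈ adjoin ℚ {w}), ρ ⟨x, hw hx⟩ = ⟨x, hw hx⟩ := by
      intro x hx
      refine adjoin_induction ℚ (p := fun x hx => ρ ⟨x, hw hx⟩ = ⟨x, hw hx⟩) ?_ ?_ ?_ ?_ ?_ hx
      · intro y hy
        obtain rfl : y = w := Set.mem_singleton_iff.1 hy
        exact hρ
      · intro r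
        exact ρ.commutes r
      · intro a b ha hb h1 h2
        have e : (⟨a + b, hw (add_mem ha hb)⟩ : K) = ⟨a, hw ha⟩ + ⟨b, hw hb⟩ := rfl
        rw [e, map_add, h1, h2]
      · intro a ha h1
        have e : (⟨a⁻¹, hw (inv_mem ha)⟩ : K) = (⟨a, hw ha⟩ : K)⁻¹ := rfl
        rw [e, map_inv₀, h1]
      · intro a b ha hb h1 h2
        have e : (⟨a * b, hw (mul_mem ha hb)⟩ : K) = ⟨a, hw ha⟩ * ⟨b, hw hb⟩ := rfl
        rw [e, map_mul, h1, h2]
    let r : (extendScalars hw) ≃ₐ[adjoin ℚ {w}] (extendScalars hw) :=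
      { toFun := fun x => ⟨(ρ ⟨x.1, x.2⟩).1, (ρ ⟨x.1, x.2⟩).2⟩
        invFun := fun x => ⟨(ρ.symm ⟨x.1, x.2⟩).1, (ρ.symm ⟨x.1, x.2⟩).2⟩
        left_inv := fun x => Subtype.ext (congrArg Subtype.val (ρ.symm_apply_apply ⟨x.1, x.2⟩))
        right_inv := fun x => Subtype.ext (congrArg Subtype.val (ρ.apply_symm_apply ⟨x.1, x.2⟩))
        map_mul' := fun x y => Subtype.ext (congrArg Subtype.val (map_mul ρ
          (⟨x.1, x.2⟩ : K) ⟨y.1, y.2⟩))
        map_add' := fun x y => Subtype.ext (congrArg Subtype.val (map_add ρ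
          (⟨x.1, x.2⟩ : K) ⟨y.1, y.2⟩))
        commutes' := fun x => Subtype.ext (by
          exact congrArg Subtype.val (hfix x.1 x.2)) }
    exact ⟨r, rfl⟩
  obtain ⟨s, rfl⟩ := key σ hσ
  obtain ⟨t, rfl⟩ := key τ hτ
  rw [← map_mul, hf.comm, map_mul]

end AB5

open AB5 in
theorem t_AB5 (hU : S_U5) : S_AB5 := by
  intro _ k K h hk hK w hw5 hw hf
  obtain ⟨m, hm, a, b, hab, hmc, hne, hspan⟩ := quad hk
  have hst : ∀ x ∈ K, (starRingEnd ℂ) x ∈ K := conj_mem hw5 hw hf
  have hwr : (starRingEnd ℂ) w = w := conj_sqrt w hw5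
  let W : K := ⟨w, hw (mem_adjoin_simple_self ℚ w)⟩
  let M : K := ⟨m, h hm⟩
  have hW5 : W ^ 2 = 5 := Subtype.ext hw5
  have hM : M ^ 2 = algebraMap ℚ K a + algebraMap ℚ K b * M := Subtype.ext hab
  let c : K ≃ₐ[ℚ] K :=
    { toFun := fun x => ⟨(starRingEnd ℂ) x, hst _ x.2⟩
      invFun := fun x => ⟨(starRingEnd ℂ) x, hst _ x.2⟩
      left_inv := fun x => Subtype.ext (Complex.conj_conj _)
      right_inv := fun x => Subtype.ext (Complex.conj_conj _)
      map_mul' := fun x y => Subtype.ext (map_mul (starRingEnd ℂ) (x : ℂ) (y : ℂ))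
      map_add' := fun x y => Subtype.ext (map_add (starRingEnd ℂ) (x : ℂ) (y : ℂ))
      commutes' := fun r => Subtype.ext (by
        show (starRingEnd ℂ) (algebraMap ℚ ℂ r) = algebraMap ℚ ℂ r
        rw [eq_ratCast (algebraMap ℚ ℂ) r, map_ratCast]) }
  have hcv : ∀ x : K, ((c x : K) : ℂ) = (starRingEnd ℂ) x := fun _ => rfl
  have hcc : ∀ x : K, c (c x) = x := fun x => Subtype.ext (Complex.conj_conj _)
  have hcW : c W = W := Subtype.ext hwr
  have hcM : c M = algebraMap ℚ K b - M := Subtype.ext hmc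
  have hsM : ∀ s : (extendScalars h) ≃ₐ[k] (extendScalars h), toQ h s M = M := by
    intro s
    apply Subtype.ext
    rw [toQ_val]
    exact congrArg Subtype.val (s.commutes ⟨m, hm⟩)
  -- automorphisms which fix `m`
  have hfrom : ∀ σ : K ≃ₐ[ℚ] K, σ M = M →
      ∃ s : (extendScalars h) ≃ₐ[k] (extendScalars h), toQ h s = σ := by
    intro σ hσ
    let s : (extendScalars h) ≃ₐ[k] (extendScalars h) :=
      { toFun := fun x => ⟨(σ ⟨x.1, x.2⟩).1, (σ ⟨x.1, x.2⟩).2⟩
        invFun := fun x => ⟨(σ.symm ⟨x.1, x.2⟩).1, (σ.symm ⟨x.1, x.2⟩).2⟩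
        left_inv := fun x => Subtype.ext (congrArg Subtype.val (σ.symm_apply_apply ⟨x.1, x.2⟩))
        right_inv := fun x => Subtype.ext (congrArg Subtype.val (σ.apply_symm_apply ⟨x.1, x.2⟩))
        map_mul' := fun x y => Subtype.ext (congrArg Subtype.val (map_mul σ
          (⟨x.1, x.2⟩ : K) ⟨y.1, y.2⟩))
        map_add' := fun x y => Subtype.ext (congrArg Subtype.val (map_add σ
          (⟨x.1, x.2⟩ : K) ⟨y.1, y.2⟩))
        commutes' := fun r => Subtype.ext (by
          obtain ⟨x, y, hr⟩ := hspan r.1 r.2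
          have h2 : (⟨r.1, h r.2⟩ : K) = algebraMap ℚ K x + algebraMap ℚ K y * M :=
            Subtype.ext hr
          have h3 : σ (⟨r.1, h r.2⟩ : K) = ⟨r.1, h r.2⟩ := by
            rw [h2, map_add, map_mul, σ.commutes, σ.commutes, hσ]
          exact congrArg Subtype.val h3) }
    exact ⟨s, rfl⟩
  have hpm : ∀ σ : K ≃ₐ[ℚ] K, σ W = W ∨ σ W = -W := by
    intro σ
    have h1 : (σ W) ^ 2 = W ^ 2 := by rw [← map_pow, hW5, map_ofNat]
    exact sq_eq_sq_iff_eq_or_eq_neg.1 h1
  have hcomm : ∀ (s t : (extendScalars h) ≃ₐ[k] (extendScalars h)) (y : K),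
      toQ h s (toQ h t y) = toQ h t (toQ h s y) := by
    intro s t y
    rw [← AlgEquiv.mul_apply, ← map_mul, hK.comm, map_mul, AlgEquiv.mul_apply]
  -- some automorphism over `k` moves `√5`
  obtain ⟨s₀, hs₀⟩ : ∃ s : (extendScalars h) ≃ₐ[k] (extendScalars h), toQ h s W = -W := by
    by_contra hcon
    push Not at hcon
    have hg := hK.gal
    have h1 : ∀ s : (extendScalars h) ≃ₐ[k] (extendScalars h),
        s (⟨w, W.2⟩ : extendScalars h) = ⟨w, W.2⟩ := by
      intro s
      have h2 := (hpm (toQ h s)).resolve_right (hcon s)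
      exact Subtype.ext (congrArg Subtype.val h2)
    have hfd : FiniteDimensional k (extendScalars h) := by
      have h1 : FiniteDimensional ℚ (extendScalars h) := hK.fin
      exact Module.Finite.of_restrictScalars_finite ℚ k _
    obtain ⟨y, hy⟩ := (IsGalois.mem_bot_iff_fixed (F := k) (E := extendScalars h)
      (⟨w, W.2⟩ : extendScalars h)).2 h1
    have hyw : (y : ℂ) = w := congrArg Subtype.val hy
    have hwk : w ∈ k := by
      rw [← hyw]
      exact y.2
    -- `m = s + t w` is real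
    obtain ⟨s, t, hst'⟩ := hspan w hwk
    have h3 : (starRingEnd ℂ) w = s + t * (starRingEnd ℂ) m := by
      rw [hst', map_add, map_mul, map_ratCast, map_ratCast]
    rw [hwr] at h3
    have h4 : (t : ℂ) * ((starRingEnd ℂ) m - m) = 0 := by
      linear_combination hst' - h3
    rcases mul_eq_zero.1 h4 with h5 | h5
    · rw [h5, zero_mul, add_zero] at hst'
      have h6 : ((s : ℚ) : ℂ) ^ 2 = 5 := by rw [← hst', hw5]
      have h7 : s ^ 2 = 5 := by exact_mod_cast h6
      have h8 : IsSquare (5 : ℚ) := ⟨s, by rw [← h7, pow_two]⟩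
      have h9 : ¬ IsSquare (5 : ℚ) := by
        have : Irrational (Real.sqrt 5) := Nat.Prime.irrational_sqrt (p := 5) (by norm_num)
        rintro ⟨q, hq⟩
        apply this
        refine ⟨|q|, ?_⟩
        have h10 : ((|q| : ℚ) : ℝ) = Real.sqrt ((q : ℝ) * q) := by
          rw [Real.sqrt_mul_self_eq_abs]
          push_cast
          rfl
        rw [h10]
        congr 1
        have h11 : ((q * q : ℚ) : ℝ) = ((5 : ℚ) : ℝ) := by rw [← hq]
        push_cast at h11
        rw [h11]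
      exact h9 h8
    · exact hne (sub_eq_zero.1 h5)
  -- the conjugate of `s₀`
  have hconj : ∀ s : (extendScalars h) ≃ₐ[k] (extendScalars h),
      ∃ s' : (extendScalars h) ≃ₐ[k] (extendScalars h), toQ h s' = c * toQ h s * c := by
    intro s
    apply hfrom
    rw [AlgEquiv.mul_apply, AlgEquiv.mul_apply, hcM, map_sub, AlgEquiv.commutes, hsM, map_sub,
      AlgEquiv.commutes, hcM]
    ring
  obtain ⟨s₁, hs₁⟩ := hconj s₀
  have hs₁W : toQ h s₁ W = -W := by
    rw [hs₁, AlgEquiv.mul_apply, AlgEquiv.mul_apply, hcW, hs₀, map_neg, hcW]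
  have hinvW : ∀ s : (extendScalars h) ≃ₐ[k] (extendScalars h), toQ h s W = -W →
      toQ h s⁻¹ W = -W := by
    intro s hs
    have h5 : toQ h s (-W) = W := by rw [map_neg, hs, neg_neg]
    have h6 : toQ h s⁻¹ (toQ h s (-W)) = -W := by
      rw [← AlgEquiv.mul_apply, ← map_mul, inv_mul_cancel, map_one]
      rfl
    rw [h5] at h6
    exact h6
  -- automorphisms over `k` which fix `√5` commute with `c`
  have hcs : ∀ s : (extendScalars h) ≃ₐ[k] (extendScalars h), toQ h s W = W →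
      ∀ x, toQ h s (c x) = c (toQ h s x) := by
    intro s hs x
    rw [← AlgEquiv.mul_apply, comm_w hw hf (toQ h s) c hs hcW, AlgEquiv.mul_apply]
  -- conjugates of automorphisms which move `√5`
  have hcz : ∀ s : (extendScalars h) ≃ₐ[k] (extendScalars h), toQ h s W = -W →
      ∀ x, c (toQ h s (c x)) = toQ h (s * (s₀⁻¹ * s₁)) x := by
    intro s hs x
    have h1 : toQ h (s₀⁻¹ * s) W = W := by
      rw [map_mul, AlgEquiv.mul_apply, hs, map_neg, hinvW s₀ hs₀, neg_neg]
    have h2 : toQ h s = toQ h s₀ * toQ h (s₀⁻¹ * s) := by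
      rw [← map_mul, mul_inv_cancel_left]
    rw [h2, AlgEquiv.mul_apply, hcs _ h1]
    have h3 : c (toQ h s₀ (c (toQ h (s₀⁻¹ * s) x))) = toQ h s₁ (toQ h (s₀⁻¹ * s) x) := by
      rw [hs₁]
      rfl
    rw [h3, ← AlgEquiv.mul_apply, ← map_mul]
    congr 2
    rw [hK.comm s₁, mul_assoc, hK.comm s₀⁻¹, mul_assoc, hK.comm s₁]
  have hzW : toQ h (s₀⁻¹ * s₁) W = W := by
    rw [map_mul, AlgEquiv.mul_apply, hs₁W, map_neg, hinvW s₀ hs₀, neg_neg]
  have first : ∃ z : (extendScalars h) ≃ₐ[k] (extendScalars h), FiveTwist h z ∧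
      ∀ x : extendScalars h, z x = x → ∀ (σ τ : K ≃ₐ[ℚ] K) (y : K), (y : ℂ) = x →
        σ (τ y) = τ (σ y) := by
    refine ⟨s₀⁻¹ * s₁, ⟨⟨w, W.2, hw5⟩, 0, fun x => (starRingEnd ℂ) x, Or.inr fun _ => rfl, hst,
      ?_⟩, ?_⟩
    · intro s s' hss v hv
      -- `s' = c s c`
      have h1 : ∀ x : K, toQ h s' x = c (toQ h s (c x)) := by
        intro x
        apply Subtype.ext
        have h2 := hss ⟨(c x).1, (c x).2⟩ ⟨x.1, x.2⟩ (by
          show (x : ℂ) = (starRingEnd ℂ) ((starRingEnd ℂ) (x : ℂ))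
          rw [Complex.conj_conj])
        exact h2
      -- `v = ± w`
      have hv2 : (⟨v.1, v.2⟩ : K) = W ∨ (⟨v.1, v.2⟩ : K) = -W := by
        have h2 : (⟨v.1, v.2⟩ : K) ^ 2 = W ^ 2 := by
          rw [hW5]
          exact Subtype.ext (congrArg Subtype.val hv)
        exact sq_eq_sq_iff_eq_or_eq_neg.1 h2
      have hv3 : ∀ u : extendScalars h, s v = u → toQ h s ⟨v.1, v.2⟩ = ⟨u.1, u.2⟩ := by
        intro u hu
        apply Subtype.ext
        rw [toQ_val]
        exact congrArg Subtype.val hu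
      constructor
      · intro hsv
        rw [pow_zero, pow_one]
        have h2 := hv3 v hsv
        have h3 : toQ h s W = W := by
          rcases hv2 with h4 | h4
          · rw [h4] at h2
            exact h2
          · rw [h4, map_neg] at h2
            exact neg_injective h2
        apply toQ_inj h
        apply AlgEquiv.ext
        intro x
        rw [h1, hcs s h3, hcc]
      · intro hsv
        rw [pow_zero, pow_one]
        have h2 : toQ h s ⟨v.1, v.2⟩ = -⟨v.1, v.2⟩ := hv3 (-v) hsv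
        have h3 : toQ h s W = -W := by
          rcases hv2 with h4 | h4
          · rw [h4] at h2
            exact h2
          · rw [h4, map_neg] at h2
            exact neg_injective h2
        apply toQ_inj h
        apply AlgEquiv.ext
        intro x
        rw [h1, hcz s h3]
    · intro x hx σ τ y hy
      have hzy : toQ h (s₀⁻¹ * s₁) y = y := by
        apply Subtype.ext
        have h1 : (⟨y.1, y.2⟩ : extendScalars h) = x := Subtype.ext hy
        rw [toQ_val, h1, hx, hy]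
      have hstar : ∀ s : (extendScalars h) ≃ₐ[k] (extendScalars h),
          toQ h s (c y) = c (toQ h s y) := by
        intro s
        rcases hpm (toQ h s) with h1 | h1
        · exact hcs s h1 y
        · have h2 := hcz s h1 (c y)
          rw [hcc] at h2
          rw [h2, map_mul, AlgEquiv.mul_apply, hcs _ hzW, hzy]
      have hdec : ∀ σ : K ≃ₐ[ℚ] K, ∃ s : (extendScalars h) ≃ₐ[k] (extendScalars h),
          σ = toQ h s ∨ σ = toQ h s * c := by
        intro σ
        have h2 : (σ M - M) * (σ M - (algebraMap ℚ K b - M)) = 0 := by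
          have h3 : (σ M) ^ 2 = algebraMap ℚ K a + algebraMap ℚ K b * σ M := by
            rw [← map_pow, hM, map_add, map_mul, σ.commutes, σ.commutes]
          linear_combination h3 - hM
        rcases mul_eq_zero.1 h2 with h3 | h3
        · obtain ⟨s, hs⟩ := hfrom σ (sub_eq_zero.1 h3)
          exact ⟨s, Or.inl hs.symm⟩
        · have h4 := sub_eq_zero.1 h3
          obtain ⟨s, hs⟩ := hfrom (σ * c) (by
            rw [AlgEquiv.mul_apply, hcM, map_sub, σ.commutes, h4]
            ring)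
          refine ⟨s, Or.inr ?_⟩
          rw [hs]
          apply AlgEquiv.ext
          intro y
          rw [AlgEquiv.mul_apply, AlgEquiv.mul_apply, hcc]
      obtain ⟨s, hs⟩ := hdec σ
      obtain ⟨t, ht⟩ := hdec τ
      rcases hs with rfl | rfl <;> rcases ht with rfl | rfl
      · exact hcomm s t y
      · rw [AlgEquiv.mul_apply, AlgEquiv.mul_apply, ← hstar, hcomm]
      · rw [AlgEquiv.mul_apply, AlgEquiv.mul_apply, ← hstar, hcomm]
      · rw [AlgEquiv.mul_apply, AlgEquiv.mul_apply, AlgEquiv.mul_apply, AlgEquiv.mul_apply,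
          hstar, hstar, hcc, hcc, hcomm]
  refine ⟨first, ?_⟩
  obtain ⟨z, hz, hzc⟩ := first
  intro K₀ hk0 h0K hx E hE hPE
  refine (hU k K h hk hK z hz).2 K₀ hk0 h0K ?_ E hE hPE
  intro x hzx
  exact hx ⟨x.1, x.2⟩ fun σ τ => hzc x hzx σ τ ⟨x.1, x.2⟩ rfl

end Pool.Agent.MuBr
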