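import Pool.Agent.OQM.St

/-!
# MP_b78433_nt, `p = 5`: cyclic extensions of degree `2 ^ r` which contain `√5` (helper96)

The lemmas of the namespace `CY5x` are those of `Pool/Agent/OB/F_CYC.lean`, `Pool/Agent/OB/F_SUB.lean` (helper60).
-/

set_option autoImplicit false

open NumberField IntermediateField

namespace Pool.Agent.MuBr

open Pool.Agent.MuCyc

namespace CY5x

/-- The group of `K / k`. -/
abbrev GalM {k K : IntermediateField ℚ ℂ} (h : k ≤ K) := (extendScalars h) ≃ₐ[k] (extendScalars h)

/-- `5^(2^j) = 1 + 2^(j+2) + c 2^(j+3)`. -/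
theorem five_pow (j : ℕ) : ∃ c : ℕ, 5 ^ 2 ^ j = 1 + 2 ^ (j + 2) + c * 2 ^ (j + 3) := by
  induction j with
  | zero => exact ⟨0, by norm_num⟩
  | succ j ih =>
    obtain ⟨c, hc⟩ := ih
    refine ⟨c + 2 ^ j * (1 + 2 * c) ^ 2, ?_⟩
    rw [pow_succ 2 j, pow_mul, hc]
    ring

/-- A square root of `5` is real. -/
theorem conj_sqrt {w : ℂ} (hw : w ^ 2 = 5) : (starRingEnd ℂ) w = w := by
  have h1 : ((starRingEnd ℂ) w) ^ 2 = w ^ 2 := by
    rw [← map_pow, hw]
    exact map_ofNat _ 5
  rcases sq_eq_sq_iff_eq_or_eq_neg.1 h1 with h2 | h2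
  · exact h2
  · exfalso
    have h3 : w * (starRingEnd ℂ) w = -5 := by rw [h2, ← hw]; ring
    rw [Complex.mul_conj] at h3
    have h4 : (Complex.normSq w : ℝ) = -5 := by exact_mod_cast h3
    have h5 := Complex.normSq_nonneg w
    linarith

/-- `√5` is not in an imaginary quadratic field. -/
theorem sqrt_notMem {k : IntermediateField ℚ ℂ} (hk : Module.finrank ℚ k = 2)
    (hi : ∃ z ∈ k, (starRingEnd ℂ) z ≠ z) {w : ℂ} (hw : w ^ 2 = 5) : w ∉ k := by
  intro hwk
  obtain ⟨z, hz, hne⟩ := hi
  have fd : FiniteDimensional ℚ k := Module.finite_of_finrank_pos (by omega)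
  have hle : IntermediateField.adjoin ℚ {w} ≤ k := by
    rw [IntermediateField.adjoin_le_iff]
    intro x hx
    rw [Set.mem_singleton_iff.1 hx]
    exact hwk
  have hint : IsIntegral ℚ w := by
    refine ⟨Polynomial.X ^ 2 - Polynomial.C 5, Polynomial.monic_X_pow_sub_C _ two_ne_zero, ?_⟩
    simp [hw]
  have hd : Module.finrank ℚ (IntermediateField.adjoin ℚ {w}) = 2 := by
    have hdvd : Module.finrank ℚ (IntermediateField.adjoin ℚ {w}) ∣ 2 := by
      rw [← hk]
      let _ := IntermediateField.inclusion hle
      let _ : Algebra (IntermediateField.adjoin ℚ {w}) k :=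
        (IntermediateField.inclusion hle).toRingHom.toAlgebra
      have : IsScalarTower ℚ (IntermediateField.adjoin ℚ {w}) k :=
        IsScalarTower.of_algebraMap_eq fun _ => rfl
      exact ⟨_, (Module.finrank_mul_finrank ℚ (IntermediateField.adjoin ℚ {w}) k).symm⟩
    rcases (Nat.dvd_prime Nat.prime_two).1 hdvd with h1 | h1
    · exfalso
      rw [IntermediateField.finrank_eq_one_iff, IntermediateField.adjoin_simple_eq_bot_iff,
        IntermediateField.mem_bot] at h1
      obtain ⟨a, ha⟩ := h1
      have h2 : (a : ℂ) ^ 2 = 5 := by rw [← hw, ← ha]; rfl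
      have h3 : a ^ 2 = 5 := by exact_mod_cast h2
      have h4 : ¬ IsSquare (5 : ℚ) := by
        rw [show (5 : ℚ) = ((5 : ℕ) : ℚ) by norm_num, Rat.isSquare_natCast_iff]
        exact (Nat.prime_iff.1 (by norm_num : Nat.Prime 5)).not_isSquare
      exact h4 ⟨a, by rw [← h3]; ring⟩
    · exact h1
  have heq : IntermediateField.adjoin ℚ {w} = k :=
    IntermediateField.eq_of_le_of_finrank_eq hle (by rw [hd, hk])
  rw [← heq] at hz
  apply hne
  refine IntermediateField.adjoin_induction ℚ (p := fun x _ => (starRingEnd ℂ) x = x)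
    ?_ ?_ ?_ ?_ ?_ hz
  · intro x hx
    rw [Set.mem_singleton_iff.1 hx]
    exact conj_sqrt hw
  · intro q
    show (starRingEnd ℂ) (algebraMap ℚ ℂ q) = algebraMap ℚ ℂ q
    rw [show algebraMap ℚ ℂ q = ((q : ℝ) : ℂ) by simp]
    exact Complex.conj_ofReal _
  · intro x y _ _ hx hy
    rw [map_add, hx, hy]
  · intro x _ hx
    rw [map_inv₀, hx]
  · intro x y _ _ hx hy
    rw [map_mul, hx, hy]

/-- Restriction of automorphisms. -/
theorem exists_res {k L K : IntermediateField ℚ ℂ} (hL : k ≤ L) (hLK : L ≤ K) (hK : k ≤ K)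
    (hG : IsGalois k (IntermediateField.extendScalars hL)) :
    ∃ res : GalM hK →* GalM hL, ∀ (s : GalM hK)
      (x : IntermediateField.extendScalars hL) (x' : IntermediateField.extendScalars hK),
      (x' : ℂ) = x → ((s x' : IntermediateField.extendScalars hK) : ℂ) =
        (res s x : IntermediateField.extendScalars hL) := by
  have hE : IntermediateField.extendScalars hL ≤ IntermediateField.extendScalars hK :=
    fun x hx => hLK hx
  let L₀ : IntermediateField k (IntermediateField.extendScalars hK) :=
    IntermediateField.restrict hE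
  let e : IntermediateField.extendScalars hL ≃ₐ[k] L₀ := IntermediateField.restrictAlgEquiv hE
  have hg₀ : IsGalois k L₀ := IsGalois.of_algEquiv e
  refine ⟨((AlgEquiv.autCongr e.symm).toMonoidHom).comp
    (AlgEquiv.restrictNormalHom (F := k) (K₁ := IntermediateField.extendScalars hK) L₀), ?_⟩
  intro s x x' hx
  have h3 := AlgEquiv.restrictNormal_commutes s L₀ (e x)
  have h4 : (algebraMap L₀ (IntermediateField.extendScalars hK)) (e x) = x' := by
    apply Subtype.ext
    rw [hx]
    rfl
  rw [h4] at h3
  rw [← h3]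
  show _ = ((e.symm ((AlgEquiv.restrictNormal s L₀) (e x)) : IntermediateField.extendScalars hL) :
    ℂ)
  have h5 : ∀ y : L₀, ((e.symm y : IntermediateField.extendScalars hL) : ℂ) =
      ((algebraMap L₀ (IntermediateField.extendScalars hK)) y :
        IntermediateField.extendScalars hK) := by
    intro y
    obtain ⟨z, rfl⟩ := e.surjective y
    rw [e.symm_apply_apply]
    rfl
  rw [h5]

/-- The elements of a cyclic Galois group which are trivial on a subfield of degree `e`. -/
theorem dvd_of_fix {k L' L : IntermediateField ℚ ℂ} [FiniteDimensional ℚ L] (h1 : k ≤ L')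
    (h2 : L' ≤ L) (h : k ≤ L) (hG : IsGalois k (IntermediateField.extendScalars h))
    (g : GalM h) (hg : ∀ x, x ∈ Subgroup.zpowers g) (i : ℕ)
    (hi : ∀ x : IntermediateField.extendScalars h, (x : ℂ) ∈ L' → (g ^ i) x = x) :
    Module.finrank k (IntermediateField.extendScalars h1) ∣ i := by
  have fdk : FiniteDimensional k (IntermediateField.extendScalars h) := by
    have h1 : FiniteDimensional ℚ (IntermediateField.extendScalars h) :=
      inferInstanceAs (FiniteDimensional ℚ L)
    exact Module.Finite.of_restrictScalars_finite ℚ k _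
  have hE : IntermediateField.extendScalars h1 ≤ IntermediateField.extendScalars h :=
    fun x hx => h2 hx
  let L₀ : IntermediateField k (IntermediateField.extendScalars h) :=
    IntermediateField.restrict hE
  let e : IntermediateField.extendScalars h1 ≃ₐ[k] L₀ := IntermediateField.restrictAlgEquiv hE
  have hfr : Module.finrank k L₀ = Module.finrank k (IntermediateField.extendScalars h1) :=
    e.symm.toLinearEquiv.finrank_eq
  have hcardG : Nat.card (GalM h) = Module.finrank k (IntermediateField.extendScalars h) :=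
    IsGalois.card_aut_eq_finrank _ _
  have hcardH : Nat.card L₀.fixingSubgroup =
      Module.finrank L₀ (IntermediateField.extendScalars h) :=
    IsGalois.card_fixingSubgroup_eq_finrank L₀
  have hmul : Module.finrank k L₀ * Module.finrank L₀ (IntermediateField.extendScalars h) =
      Module.finrank k (IntermediateField.extendScalars h) :=
    Module.finrank_mul_finrank k L₀ (IntermediateField.extendScalars h)
  have hmem : g ^ i ∈ L₀.fixingSubgroup := by
    rw [IntermediateField.mem_fixingSubgroup_iff]
    intro x hx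
    apply hi
    have := (IntermediateField.mem_restrict hE x).1 hx
    exact this
  have hpow : (g ^ i) ^ Nat.card L₀.fixingSubgroup = 1 := by
    have h3 : (⟨g ^ i, hmem⟩ : L₀.fixingSubgroup) ^ Nat.card L₀.fixingSubgroup = 1 :=
      pow_card_eq_one'
    exact congrArg Subtype.val h3
  rw [← pow_mul] at hpow
  have hord : orderOf g = Nat.card (GalM h) :=
    orderOf_eq_card_of_forall_mem_zpowers hg
  have hdvd := orderOf_dvd_of_pow_eq_one hpow
  rw [hord, hcardG, ← hmul, hcardH, hfr] at hdvd
  exact Nat.dvd_of_mul_dvd_mul_right Module.finrank_pos hdvd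

/-- The action of the Galois group on `√5`. -/
theorem exists_gen {k L : IntermediateField ℚ ℂ} [FiniteDimensional ℚ L] (h : k ≤ L)
    (hG : IsGalois k (IntermediateField.extendScalars h)) (g : GalM h)
    (hg : ∀ x, x ∈ Subgroup.zpowers g) {w : ℂ} (hwL : w ∈ L) (hw : w ^ 2 = 5) (hwk : w ∉ k) :
    ∀ (i : ℕ), (((g ^ i) ⟨w, hwL⟩ : IntermediateField.extendScalars h) : ℂ) = (-1) ^ i * w := by
  have h1 : ((g ⟨w, hwL⟩ : IntermediateField.extendScalars h) : ℂ) ^ 2 = w ^ 2 := by
    have h2 : (g ⟨w, hwL⟩) ^ 2 = (⟨w, hwL⟩ : IntermediateField.extendScalars h) ^ 2 := by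
      rw [← map_pow]
      have h3 : (⟨w, hwL⟩ : IntermediateField.extendScalars h) ^ 2 = 5 := Subtype.ext hw
      rw [h3]
      exact map_ofNat _ 5
    exact congrArg Subtype.val h2
  have h2 : ((g ⟨w, hwL⟩ : IntermediateField.extendScalars h) : ℂ) = -w := by
    rcases sq_eq_sq_iff_eq_or_eq_neg.1 h1 with h3 | h3
    · exfalso
      apply hwk
      have h4 : ∀ s : GalM h, s ⟨w, hwL⟩ = ⟨w, hwL⟩ := by
        have h5 : g ∈ MulAction.stabilizer (GalM h)
            (⟨w, hwL⟩ : IntermediateField.extendScalars h) := Subtype.ext h3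
        intro s
        have h6 : s ∈ MulAction.stabilizer (GalM h)
            (⟨w, hwL⟩ : IntermediateField.extendScalars h) :=
          (Subgroup.zpowers_le.2 h5) (hg s)
        exact h6
      have fdk : FiniteDimensional k (IntermediateField.extendScalars h) := by
        have h1 : FiniteDimensional ℚ (IntermediateField.extendScalars h) :=
          inferInstanceAs (FiniteDimensional ℚ L)
        exact Module.Finite.of_restrictScalars_finite ℚ k _
      obtain ⟨a, ha⟩ := (IsGalois.mem_range_algebraMap_iff_fixed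
        (⟨w, hwL⟩ : IntermediateField.extendScalars h)).2 h4
      have h7 := congrArg Subtype.val ha
      have h8 : (a : ℂ) = w := h7
      rw [← h8]
      exact a.2
    · exact h3
  intro i
  induction i with
  | zero => simp
  | succ i ih =>
    have h3 : g ⟨w, hwL⟩ = -⟨w, hwL⟩ := Subtype.ext h2
    rw [pow_succ, AlgEquiv.mul_apply, h3, map_neg]
    show -(((g ^ i) ⟨w, hwL⟩ : IntermediateField.extendScalars h) : ℂ) = _
    rw [ih]
    ring

/-- Subextensions of abelian extensions are abelian. -/
theorem sub_ab {k K' K : IntermediateField ℚ ℂ} [FiniteDimensional ℚ K] (h1 : k ≤ K')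
    (h2 : K' ≤ K) (h : k ≤ K) (hG : IsGalois k (IntermediateField.extendScalars h))
    (hc : ∀ σ τ : (IntermediateField.extendScalars h) ≃ₐ[k] (IntermediateField.extendScalars h),
      σ * τ = τ * σ) :
    IsGalois k (IntermediateField.extendScalars h1) ∧
    ∀ σ τ : (IntermediateField.extendScalars h1) ≃ₐ[k] (IntermediateField.extendScalars h1),
      σ * τ = τ * σ := by
  have fdk : FiniteDimensional k (IntermediateField.extendScalars h) := by
    have h1 : FiniteDimensional ℚ (IntermediateField.extendScalars h) :=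
      inferInstanceAs (FiniteDimensional ℚ K)
    exact Module.Finite.of_restrictScalars_finite ℚ k _
  have hE : IntermediateField.extendScalars h1 ≤ IntermediateField.extendScalars h :=
    fun x hx => h2 hx
  let L₀ : IntermediateField k (IntermediateField.extendScalars h) :=
    IntermediateField.restrict hE
  have hnorm : L₀.fixingSubgroup.Normal := by
    constructor
    intro n hn g
    rw [hc g n, mul_assoc, mul_inv_cancel, mul_one]
    exact hn
  have hg₀ : IsGalois k L₀ := by
    have h3 := IsGalois.of_fixedField_normal_subgroup L₀.fixingSubgroup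
    rwa [IsGalois.fixedField_fixingSubgroup] at h3
  let e : IntermediateField.extendScalars h1 ≃ₐ[k] L₀ := IntermediateField.restrictAlgEquiv hE
  have hg : IsGalois k (IntermediateField.extendScalars h1) := IsGalois.of_algEquiv e.symm
  refine ⟨hg, fun σ τ => ?_⟩
  -- lift to `K`
  have hlift : ∀ s : (IntermediateField.extendScalars h1) ≃ₐ[k]
      (IntermediateField.extendScalars h1), ∃ s' : (IntermediateField.extendScalars h) ≃ₐ[k]
      (IntermediateField.extendScalars h), ∀ x : IntermediateField.extendScalars h1,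
      ((s' ⟨x, hE x.2⟩ : IntermediateField.extendScalars h) : ℂ) =
        (s x : IntermediateField.extendScalars h1) := by
    intro s
    obtain ⟨s', hs'⟩ := AlgEquiv.restrictNormalHom_surjective (F := k) (K₁ := L₀)
      (E := IntermediateField.extendScalars h) (AlgEquiv.autCongr e s)
    refine ⟨s', fun x => ?_⟩
    have h3 := AlgEquiv.restrictNormal_commutes s' L₀ (e x)
    have h4 : (AlgEquiv.restrictNormal s' L₀) (e x) = e (s x) := by
      have h5 : AlgEquiv.restrictNormal s' L₀ = AlgEquiv.autCongr e s := hs'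
      rw [h5]
      show e (s (e.symm (e x))) = e (s x)
      rw [e.symm_apply_apply]
    rw [h4] at h3
    exact (congrArg (fun y : IntermediateField.extendScalars h => (y : ℂ)) h3).symm
  obtain ⟨σ', hσ⟩ := hlift σ
  obtain ⟨τ', hτ⟩ := hlift τ
  apply AlgEquiv.ext
  intro x
  apply Subtype.ext
  have e1 : ((σ (τ x) : IntermediateField.extendScalars h1) : ℂ) =
      (σ' (τ' ⟨x, hE x.2⟩) : IntermediateField.extendScalars h) := by
    rw [← hσ]
    congr 2
    exact Subtype.ext (hτ x).symm
  have e2 : ((τ (σ x) : IntermediateField.extendScalars h1) : ℂ) =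
      (τ' (σ' ⟨x, hE x.2⟩) : IntermediateField.extendScalars h) := by
    rw [← hτ]
    congr 2
    exact Subtype.ext (hσ x).symm
  show ((σ (τ x) : IntermediateField.extendScalars h1) : ℂ) =
    ((τ (σ x) : IntermediateField.extendScalars h1) : ℂ)
  rw [e1, e2]
  exact congrArg (fun s : (IntermediateField.extendScalars h) ≃ₐ[k]
    (IntermediateField.extendScalars h) => ((s ⟨x, hE x.2⟩ : _) : ℂ)) (hc σ' τ')

/-- `MuLEC` is transitive. -/
theorem trans {p : ℕ} {A B D : IntermediateField ℚ ℂ} (h1 : MuLEC p A B) (h2 : MuLEC p B D) :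
    MuLEC p A D := by
  obtain ⟨C1, h1⟩ := h1.bound
  obtain ⟨C2, h2⟩ := h2.bound
  refine ⟨C1 + C2, fun n Q hQ => ?_⟩
  have e1 := h1 n Q hQ
  have e2 := h2 n Q hQ
  have e3 : (n + 1) ^ C1 ≤ (n + 1) ^ (C1 + C2) := Nat.pow_le_pow_right (by omega) (by omega)
  have e4 : (n + 1) ^ C2 ≤ (n + 1) ^ (C1 + C2) := Nat.pow_le_pow_right (by omega) (by omega)
  have e5 : C1 * (n + 1) ^ C1 ≤ C1 * (n + 1) ^ (C1 + C2) := Nat.mul_le_mul_left _ e3
  have e6 : C2 * (n + 1) ^ C2 ≤ C2 * (n + 1) ^ (C1 + C2) := Nat.mul_le_mul_left _ e4
  rw [add_mul]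
  omega

theorem refl (p : ℕ) (A : IntermediateField ℚ ℂ) : MuLEC p A A :=
  ⟨0, fun n Q _ => by simp⟩

/-- The field of the elements fixed by `z`. -/
noncomputable def fixF {k K : IntermediateField ℚ ℂ} (h : k ≤ K) (z : GalM h) :
    IntermediateField ℚ ℂ :=
  (lift (fixedField (Subgroup.zpowers z))).restrictScalars ℚ

theorem mem_fixF {k K : IntermediateField ℚ ℂ} (h : k ≤ K) (z : GalM h) (x : extendScalars h) :
    (x : ℂ) ∈ fixF h z ↔ z x = x := by
  have h1 : (x : ℂ) ∈ fixF h z ↔ x ∈ fixedField (Subgroup.zpowers z) := by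
    show (x : ℂ) ∈ lift (fixedField (Subgroup.zpowers z)) ↔ _
    exact mem_lift x
  rw [h1, mem_fixedField_iff]
  constructor
  · intro h2
    exact h2 z (Subgroup.mem_zpowers z)
  · intro h2 s hs
    have h3 : z ∈ MulAction.stabilizer (GalM h) x := h2
    exact (Subgroup.zpowers_le.2 h3) hs

theorem fixF_le {k K : IntermediateField ℚ ℂ} (h : k ≤ K) (z : GalM h) : fixF h z ≤ K := by
  intro x hx
  have h1 : x ∈ lift (fixedField (Subgroup.zpowers z)) := hx
  exact (lift_le (fixedField (Subgroup.zpowers z))) h1

theorem le_fixF {k K : IntermediateField ℚ ℂ} (h : k ≤ K) (z : GalM h) : k ≤ fixF h z := by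
  intro x hx
  have h1 := (mem_fixF h z ⟨x, h hx⟩).2 (z.commutes ⟨x, hx⟩)
  exact h1

/-- The degree of `fixF`. -/
theorem deg_fixF {k K : IntermediateField ℚ ℂ} [FiniteDimensional ℚ K] (h : k ≤ K) (z : GalM h) :
    Module.finrank k (extendScalars (le_fixF h z)) * Nat.card (Subgroup.zpowers z) =
      Module.finrank k (extendScalars h) := by
  have fdk : FiniteDimensional k (extendScalars h) := by
    have h1 : FiniteDimensional ℚ (extendScalars h) := inferInstanceAs (FiniteDimensional ℚ K)
    exact Module.Finite.of_restrictScalars_finite ℚ k _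
  have hE : extendScalars (le_fixF h z) ≤ extendScalars h := fun x hx => fixF_le h z hx
  have h1 : restrict hE = fixedField (Subgroup.zpowers z) := by
    ext x
    rw [mem_restrict hE x]
    show (x : ℂ) ∈ fixF h z ↔ _
    show (x : ℂ) ∈ lift (fixedField (Subgroup.zpowers z)) ↔ _
    exact mem_lift x
  let e : extendScalars (le_fixF h z) ≃ₐ[k] restrict hE := restrictAlgEquiv hE
  have h2 : Module.finrank k (restrict hE) = Module.finrank k (extendScalars (le_fixF h z)) :=
    e.symm.toLinearEquiv.finrank_eq
  have h3 : Module.finrank (fixedField (Subgroup.zpowers z)) (extendScalars h) =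
      Nat.card (Subgroup.zpowers z) := finrank_fixedField_eq_card _
  rw [← h2, h1, ← h3]
  exact Module.finrank_mul_finrank k (fixedField (Subgroup.zpowers z)) (extendScalars h)

end CY5x

open CY5x in
theorem cy5 (hU : S_U5) [Fact (Nat.Prime 5)] (k : IntermediateField ℚ ℂ) (hk : ImQuadratic k)
    (w : ℂ) (hw : w ^ 2 = 5) (K₀ : IntermediateField ℚ ℂ) (h₀ : k ≤ K₀)
    (h4 : Module.finrank k (extendScalars h₀) = 4) (E : IntermediateField ℚ ℂ) (hE : k ≤ E)
    (hPE : PGal 5 hE) (r : ℕ) : ∀ (K : IntermediateField ℚ ℂ) (h : k ≤ K), FinAb h →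
      IsCyclic (GalM h) → Module.finrank k (extendScalars h) = 2 ^ r → w ∈ K → K₀ ≤ K →
      MuLEC 5 (K ⊔ E) (K₀ ⊔ E) := by
  induction r with
  | zero =>
    intro K h hK hcyc hr hwK hK₀
    exfalso
    have hfd := hK.fin
    obtain ⟨g, hg⟩ := hcyc.exists_generator
    have fdk : FiniteDimensional k (extendScalars h) := by
      have h1 : FiniteDimensional ℚ (extendScalars h) := inferInstanceAs (FiniteDimensional ℚ K)
      exact Module.Finite.of_restrictScalars_finite ℚ k _
    have hcard : Nat.card (GalM h) = 2 ^ 0 := by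
      rw [← hr]
      have := hK.gal
      exact IsGalois.card_aut_eq_finrank _ _
    have hg1 : g ^ (2 ^ 0) = 1 := by
      rw [← hcard]
      exact pow_card_eq_one'
    have := dvd_of_fix h₀ hK₀ h hK.gal g hg (2 ^ 0) (fun x _ => by rw [hg1]; rfl)
    rw [h4] at this
    omega
  | succ n ih =>
    intro K h hK hcyc hr hwK hK₀
    have hfd := hK.fin
    have hG := hK.gal
    have hwk : w ∉ k := sqrt_notMem hk.deg hk.imag hw
    obtain ⟨g, hg⟩ := hcyc.exists_generator
    have fdk : FiniteDimensional k (extendScalars h) := by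
      have h1 : FiniteDimensional ℚ (extendScalars h) := inferInstanceAs (FiniteDimensional ℚ K)
      exact Module.Finite.of_restrictScalars_finite ℚ k _
    have hcard : Nat.card (GalM h) = 2 ^ (n + 1) := by
      rw [← hr]
      exact IsGalois.card_aut_eq_finrank _ _
    have hg1 : g ^ (2 ^ (n + 1)) = 1 := by
      rw [← hcard]
      exact pow_card_eq_one'
    have hdvd := dvd_of_fix h₀ hK₀ h hG g hg (2 ^ (n + 1)) (fun x _ => by rw [hg1]; rfl)
    rw [h4] at hdvd
    have hn1 : 1 ≤ n := by
      rcases Nat.eq_zero_or_pos n with h0 | h0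
      · rw [h0] at hdvd
        norm_num at hdvd
      · exact h0
    rcases Nat.eq_or_lt_of_le hn1 with hn2 | hn2
    · -- degree `4`
      have hEE : extendScalars h₀ ≤ extendScalars h := fun x hx => hK₀ hx
      have h5 : extendScalars h₀ = extendScalars h := by
        refine eq_of_le_of_finrank_eq hEE ?_
        rw [h4, hr, ← hn2]
        norm_num
      have h6 : K₀ = K := by
        refine le_antisymm hK₀ fun x hx => ?_
        have : x ∈ extendScalars h := hx
        rw [← h5] at this
        exact this
      rw [h6]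
      exact refl 5 _
    · obtain ⟨m, rfl⟩ : ∃ m, n = m + 2 := ⟨n - 2, by omega⟩
      have hw0 : w ≠ 0 := by
        rintro rfl
        norm_num at hw
      have hpow : ∀ s : GalM h, ∃ i : ℕ, g ^ i = s := by
        intro s
        have h1 := hg s
        rw [← mem_powers_iff_mem_zpowers] at h1
        exact h1
      have hord : orderOf g = 2 ^ (m + 2 + 1) := by
        rw [← hcard]
        exact orderOf_eq_card_of_forall_mem_zpowers hg
      set z : GalM h := g ^ 2 ^ (m + 2) with hz
      have hordz : orderOf z = 2 := by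
        rw [hz, orderOf_pow, hord, Nat.gcd_eq_right (pow_dvd_pow 2 (by omega)),
          Nat.pow_div (by omega) (by norm_num)]
        norm_num
      -- the intermediate field
      have hdeg := deg_fixF h z
      rw [Nat.card_zpowers, hordz, hr, pow_succ 2 (m + 2)] at hdeg
      have hdeg1 : Module.finrank k (extendScalars (le_fixF h z)) = 2 ^ (m + 2) :=
        Nat.eq_of_mul_eq_mul_right (by norm_num) hdeg
      obtain ⟨hG1, hc1⟩ := sub_ab (le_fixF h z) (fixF_le h z) h hG hK.comm
      have hfd1 : FiniteDimensional ℚ (fixF h z) :=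
        FiniteDimensional.of_injective (inclusion (fixF_le h z)).toLinearMap
          (inclusion (fixF_le h z)).injective
      have fdk1 : FiniteDimensional k (extendScalars (le_fixF h z)) := by
        have h1 : FiniteDimensional ℚ (extendScalars (le_fixF h z)) :=
          inferInstanceAs (FiniteDimensional ℚ (fixF h z))
        exact Module.Finite.of_restrictScalars_finite ℚ k _
      obtain ⟨res, hres⟩ := exists_res (le_fixF h z) (fixF_le h z) h hG1
      have hcyc1 : IsCyclic (GalM (le_fixF h z)) := by
        refine isCyclic_of_orderOf_eq_card (res g) ?_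
        have hc2 : Nat.card (GalM (le_fixF h z)) = 2 ^ (m + 2) := by
          rw [← hdeg1]
          exact IsGalois.card_aut_eq_finrank _ _
        rw [hc2]
        refine Nat.dvd_antisymm ?_ ?_
        · rw [← hc2]
          exact orderOf_dvd_natCard _
        · have h7 := dvd_of_fix (le_fixF h z) (fixF_le h z) h hG g hg (orderOf (res g)) (by
            intro x hx
            apply Subtype.ext
            have h8 := hres (g ^ orderOf (res g)) ⟨(x : ℂ), hx⟩ x rfl
            rw [h8, map_pow, pow_orderOf_eq_one]
            rfl)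
          rwa [hdeg1] at h7
      have hact := exists_gen h hG g hg hwK hw hwk
      have hw1 : w ∈ fixF h z := by
        refine (mem_fixF h z ⟨w, hwK⟩).2 ?_
        apply Subtype.ext
        rw [hz, hact, Even.neg_one_pow (by
          rw [pow_succ]
          exact even_two.mul_left _), one_mul]
      have hK01 : K₀ ≤ fixF h z := by
        intro x hx
        obtain ⟨hG0, hc0⟩ := sub_ab h₀ hK₀ h hG hK.comm
        have hfd0 : FiniteDimensional ℚ K₀ :=
          FiniteDimensional.of_injective (inclusion hK₀).toLinearMap (inclusion hK₀).injective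
        have fdk0 : FiniteDimensional k (extendScalars h₀) := by
          have h1 : FiniteDimensional ℚ (extendScalars h₀) :=
            inferInstanceAs (FiniteDimensional ℚ K₀)
          exact Module.Finite.of_restrictScalars_finite ℚ k _
        obtain ⟨res0, hres0⟩ := exists_res h₀ hK₀ h hG0
        have hc3 : Nat.card (GalM h₀) = 4 := by
          rw [← h4]
          exact IsGalois.card_aut_eq_finrank _ _
        have h8 : (res0 g) ^ 4 = 1 := by
          rw [← hc3]
          exact pow_card_eq_one'
        refine (mem_fixF h z ⟨x, hK₀ hx⟩).2 ?_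
        apply Subtype.ext
        have h9 := hres0 z ⟨x, hx⟩ ⟨x, hK₀ hx⟩ rfl
        rw [h9]
        have h10 : res0 z = 1 := by
          rw [hz, map_pow, show 2 ^ (m + 2) = 4 * 2 ^ m by ring, pow_mul, h8, one_pow]
        rw [h10]
        rfl
      -- the criterion
      have hF : FiveTwist h z := by
        refine ⟨⟨w, hwK, hw⟩, 2 ^ m, fun x => x, Or.inl fun _ => rfl, fun x hx => hx, ?_⟩
        intro s s' hss w' hw'
        have hs' : s' = s := by
          apply AlgEquiv.ext
          intro x
          exact Subtype.ext (hss x x rfl)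
        rw [hs']
        obtain ⟨i, rfl⟩ := hpow s
        obtain ⟨c, hc⟩ := five_pow m
        have hw5 : (w' : ℂ) ^ 2 = 5 := congrArg Subtype.val hw'
        have hw'0 : (w' : ℂ) ≠ 0 := by
          intro h0
          rw [h0] at hw5
          norm_num at hw5
        have hwk' : (w' : ℂ) ∉ k := sqrt_notMem hk.deg hk.imag hw5
        have hact' := exists_gen h hG g hg w'.2 hw5 hwk' i
        have hact'' : (((g ^ i) w' : extendScalars h) : ℂ) = (-1) ^ i * (w' : ℂ) := hact'
        have hG3 : ∀ j : ℕ, g ^ (2 ^ (m + 3) * j) = 1 := by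
          intro j
          rw [pow_mul]
          have : g ^ 2 ^ (m + 3) = 1 := hg1
          rw [this, one_pow]
        constructor
        · intro h7
          have h8 : (((g ^ i) w' : extendScalars h) : ℂ) = w' := congrArg Subtype.val h7
          rw [hact''] at h8
          have h9 : Even i := by
            by_contra ho
            rw [Nat.not_even_iff_odd] at ho
            rw [ho.neg_one_pow, neg_one_mul] at h8
            exact hw'0 (self_eq_neg.1 h8.symm)
          obtain ⟨j, rfl⟩ := h9
          have h10 : (g ^ (j + j)) ^ 5 ^ 2 ^ m =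
              g ^ (j + j) * g ^ (2 ^ (m + 3) * j) * g ^ (2 ^ (m + 3) * (c * (j + j))) := by
            rw [← pow_mul, ← pow_add, ← pow_add, hc]
            congr 1
            ring
          rw [h10, hG3, hG3, mul_one, mul_one]
        · intro h7
          have h8 : (((g ^ i) w' : extendScalars h) : ℂ) = -w' := congrArg Subtype.val h7
          rw [hact''] at h8
          have h9 : Odd i := by
            by_contra he
            rw [Nat.not_odd_iff_even] at he
            rw [he.neg_one_pow, one_mul] at h8
            exact hw'0 (self_eq_neg.1 h8)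
          obtain ⟨j, rfl⟩ := h9
          have h10 : (g ^ (2 * j + 1)) ^ 5 ^ 2 ^ m =
              g ^ (2 * j + 1) * z * g ^ (2 ^ (m + 3) * j) *
                g ^ (2 ^ (m + 3) * (c * (2 * j + 1))) := by
            rw [hz, ← pow_mul, ← pow_add, ← pow_add, ← pow_add, hc]
            congr 1
            ring
          rw [h10, hG3, hG3, mul_one, mul_one]
      have hAb : Abelian 5 h := by
        refine ⟨hK.fin, hK.gal, hK.comm, ?_⟩
        rw [hr]
        intro h7
        have := Nat.Prime.dvd_of_dvd_pow (by norm_num) h7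
        omega
      have h11 := (hU k K h hk hAb z hF).2 (fixF h z) (le_fixF h z) (fixF_le h z)
        (fun x hx => (mem_fixF h z x).2 hx) E hE hPE
      exact trans h11 (ih (fixF h z) (le_fixF h z) ⟨hfd1, hG1, hc1⟩ hcyc1 hdeg1 hw1 hK01)

theorem t_CY5 : S_U5 → S_CY5 := by
  intro hU _ k K h hk hK hcyc hr hw K₀ h₀ hK₀ h4 E hE hPE
  obtain ⟨r, hr⟩ := hr
  obtain ⟨w, hwK, hw⟩ := hw
  exact cy5 hU k hk w hw K₀ h₀ h4 E hE hPE r K h hK hcyc hr hwK hK₀

end Pool.Agent.MuBr
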