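import Pool.Agent.OQM.St

/-!
# The characters in the clause on `p = 5`
-/

set_option autoImplicit false

open NumberField IntermediateField

namespace Pool.Agent.MuBr

/-- If `K` is abelian over `k` and over `ℚ(√5)`, then `μ = 0` for every character of `Gal(K/k)` which is
not trivial on the automorphisms which fix the largest subfield of `K` abelian over `ℚ`. -/
theorem ab5_char (h5 : S_U5) (h6 : S_AB5) [Fact (Nat.Prime 5)] (k K : IntermediateField ℚ ℂ)
    (h : k ≤ K) (hk : ImQuadratic k) (hK : Abelian 5 h) (w : ℂ) (hw2 : w ^ 2 = 5)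
    (hw : adjoin ℚ {w} ≤ K) (hA : FinAb hw)
    (χ : ((extendScalars h) ≃ₐ[k] (extendScalars h)) →* (AlgebraicClosure (ZMod 5))ˣ)
    (s : (extendScalars h) ≃ₐ[k] (extendScalars h))
    (hs : ∀ (x : extendScalars h) (y : K), (y : ℂ) = x →
      (∀ σ τ : K ≃ₐ[ℚ] K, σ (τ y) = τ (σ y)) → s x = x) (hχ : χ s ≠ 1) : MuZeroC 5 h χ := by
  obtain ⟨⟨z, hz, hz2⟩, -⟩ := h6 k K h hk hK w hw2 hw hA
  refine (h5 k K h hk hK z hz).1 χ ?_
  have hfin : FiniteDimensional ℚ ↥(extendScalars h) := hK.fin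
  have hfin2 : FiniteDimensional k ↥(extendScalars h) :=
    Module.Finite.of_restrictScalars_finite ℚ k ↥(extendScalars h)
  have hmem : s ∈ fixingSubgroup (fixedField (Subgroup.zpowers z)) := by
    rw [IntermediateField.mem_fixingSubgroup_iff]
    intro x hx
    have hzx : z x = x := by
      have := hx ⟨z, Subgroup.mem_zpowers z⟩
      exact this
    have hxK : (x : ℂ) ∈ K := x.2
    exact hs x ⟨x, hxK⟩ rfl (fun σ τ => hz2 x hzx σ τ ⟨x, hxK⟩ rfl)
  rw [fixingSubgroup_fixedField] at hmem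
  obtain ⟨n, rfl⟩ := Subgroup.mem_zpowers_iff.1 hmem
  intro h1
  apply hχ
  rw [map_zpow, h1, one_zpow]

end Pool.Agent.MuBr
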