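import Pool.Agent.OVM.Stmt

/-!
# Definitions and statements for the clause on `p = 5` of the theorem OneBranch

All fields are subfields of `ℂ`. The other definitions are in `Pool/Agent/OVM/Stmt.lean`,
`Pool/Agent/OUM/Stmt.lean`, `Pool/Agent/OBM/Stmt.lean` and `Pool/Agent/VB/HDefs.lean`.
-/

set_option autoImplicit false

open NumberField IntermediateField

namespace Pool.Agent.MuBr

/-- `√5 ∈ K`, and for some `b` the map `s ↦ s ^ (5 ^ b)` of `Gal(K/k)`, or the map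
`s ↦ (c s c) ^ (5 ^ b)` with the complex conjugation `c` (if `K` is stable under `c`), is
`s ↦ s` for the `s` with `s √5 = √5` and `s ↦ s z` for the `s` with `s √5 = -√5`. -/
structure FiveTwist {k K : IntermediateField ℚ ℂ} (h : k ≤ K)
    (z : (extendScalars h) ≃ₐ[k] (extendScalars h)) : Prop where
  root : ∃ w ∈ K, w ^ 2 = 5
  rel : ∃ (b : ℕ) (φ : ℂ → ℂ), ((∀ x, φ x = x) ∨ ∀ x, φ x = (starRingEnd ℂ) x) ∧
    (∀ x ∈ K, φ x ∈ K) ∧
    ∀ s s' : (extendScalars h) ≃ₐ[k] (extendScalars h),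
      (∀ x y : extendScalars h, (y : ℂ) = φ x →
        ((s' y : extendScalars h) : ℂ) = φ (s x : extendScalars h)) →
      ∀ w : extendScalars h, w ^ 2 = 5 →
        (s w = w → s' ^ 5 ^ b = s) ∧ (s w = -w → s' ^ 5 ^ b = s * z)

/-- The clause. -/
def S_U5 : Prop := ∀ [Fact (Nat.Prime 5)] (k K : IntermediateField ℚ ℂ) (h : k ≤ K),
  ImQuadratic k → Abelian 5 h → ∀ z : (extendScalars h) ≃ₐ[k] (extendScalars h), FiveTwist h z →
    (∀ χ : ((extendScalars h) ≃ₐ[k] (extendScalars h)) →* (AlgebraicClosure (ZMod 5))ˣ,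
      χ z ≠ 1 → MuZeroC 5 h χ) ∧
    ∀ K₀ : IntermediateField ℚ ℂ, k ≤ K₀ → K₀ ≤ K →
      (∀ x : extendScalars h, z x = x → (x : ℂ) ∈ K₀) →
      ∀ (E : IntermediateField ℚ ℂ) (hE : k ≤ E), PGal 5 hE → MuLEC 5 (K ⊔ E) (K₀ ⊔ E)

/-- (a) `K` abelian over `k` and over `ℚ(√5)`; `K₀` contains the largest subfield of `K` which is
abelian over `ℚ` (the elements of `K` for which the order of two automorphisms does not matter). To be
proved: `theorem t_AB5 : S_U5 → S_AB5`. -/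
def S_AB5 : Prop := ∀ [Fact (Nat.Prime 5)] (k K : IntermediateField ℚ ℂ) (h : k ≤ K),
  ImQuadratic k → Abelian 5 h → ∀ (w : ℂ), w ^ 2 = 5 →
  ∀ (hw : adjoin ℚ {w} ≤ K), FinAb hw →
  (∃ z : (extendScalars h) ≃ₐ[k] (extendScalars h), FiveTwist h z ∧
    ∀ x : extendScalars h, z x = x → ∀ (σ τ : K ≃ₐ[ℚ] K) (y : K), (y : ℂ) = x →
      σ (τ y) = τ (σ y)) ∧
  ∀ K₀ : IntermediateField ℚ ℂ, k ≤ K₀ → K₀ ≤ K →
    (∀ x : K, (∀ σ τ : K ≃ₐ[ℚ] K, σ (τ x) = τ (σ x)) → (x : ℂ) ∈ K₀) →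
    ∀ (E : IntermediateField ℚ ℂ) (hE : k ≤ E), PGal 5 hE → MuLEC 5 (K ⊔ E) (K₀ ⊔ E)

/-- (b) `K/k` cyclic of degree `2 ^ r`, `r ≥ 2`, with `√5 ∈ K`; `K₀` is the subfield with
`[K₀ : k] = 4`. To be proved: `theorem t_CY5 : S_U5 → S_CY5` (by induction on `r`; `MuLEC` is
transitive). -/
def S_CY5 : Prop := ∀ [Fact (Nat.Prime 5)] (k K : IntermediateField ℚ ℂ) (h : k ≤ K),
  ImQuadratic k → FinAb h → IsCyclic ((extendScalars h) ≃ₐ[k] (extendScalars h)) →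
  (∃ r : ℕ, Module.finrank k (extendScalars h) = 2 ^ r) → (∃ w ∈ K, w ^ 2 = 5) →
  ∀ (K₀ : IntermediateField ℚ ℂ) (h₀ : k ≤ K₀), K₀ ≤ K →
    Module.finrank k (extendScalars h₀) = 4 →
    ∀ (E : IntermediateField ℚ ℂ) (hE : k ≤ E), PGal 5 hE → MuLEC 5 (K ⊔ E) (K₀ ⊔ E)

end Pool.Agent.MuBr
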