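import Pool.Agent.OQM.P5A
import Pool.Agent.OQM.St
import Pool.Agent.OVM.C06
import Pool.Agent.OBM.Br

/-!
# Fields with a symmetry of the characters, `p = 5` (helper59): the clause `S_U5`
-/

set_option autoImplicit false

open NumberField IsDedekindDomain Finset
open scoped nonZeroDivisors Pointwise

namespace Pool.Agent.OQM

open _root_.Pool.Agent.RI _root_.Pool.Agent.RID _root_.Pool.Agent.MU3 _root_.Pool.Agent.MUXK
  _root_.Pool.Agent.MUXZ _root_.Pool.Agent.NSI _root_.Pool.Agent.OB _root_.Pool.Agent.OBF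

open CHIx

namespace U5x

/-- A square root of `5` is real. -/
theorem conj_sqrt {w : ℂ} (hw : w ^ 2 = 5) : (starRingEnd ℂ) w = w := by
  have h1 : ((starRingEnd ℂ) w) ^ 2 = w ^ 2 := by
    rw [← map_pow, hw]
    exact map_ofNat _ 5
  rcases sq_eq_sq_iff_eq_or_eq_neg.1 h1 with h2 | h2
  · exact h2
  · exfalso
    have h3 : w * (starRingEnd ℂ) w = -5 := by rw [h2, ← hw]; ring
    rw [Complex.mul_conj] at h3
    have h4 : (Complex.normSq w : ℝ) = -5 := by exact_mod_cast h3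
    have h5 := Complex.normSq_nonneg w
    linarith

/-- `√5` is not in an imaginary quadratic field. -/
theorem sqrt_notMem {k : IntermediateField ℚ ℂ} (hk : Module.finrank ℚ k = 2)
    (hi : ∃ z ∈ k, (starRingEnd ℂ) z ≠ z) {w : ℂ} (hw : w ^ 2 = 5) : w ∉ k := by
  intro hwk
  obtain ⟨z, hz, hne⟩ := hi
  have fd : FiniteDimensional ℚ k := Module.finite_of_finrank_pos (by omega)
  have hle : IntermediateField.adjoin ℚ {w} ≤ k := by
    rw [IntermediateField.adjoin_le_iff]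
    intro x hx
    rw [Set.mem_singleton_iff.1 hx]
    exact hwk
  have hint : IsIntegral ℚ w := by
    refine ⟨Polynomial.X ^ 2 - Polynomial.C 5, Polynomial.monic_X_pow_sub_C _ two_ne_zero, ?_⟩
    simp [hw]
  have hd : Module.finrank ℚ (IntermediateField.adjoin ℚ {w}) = 2 := by
    have hdvd : Module.finrank ℚ (IntermediateField.adjoin ℚ {w}) ∣ 2 := by
      rw [← hk]
      let _ := IntermediateField.inclusion hle
      let _ : Algebra (IntermediateField.adjoin ℚ {w}) k :=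
        (IntermediateField.inclusion hle).toRingHom.toAlgebra
      have : IsScalarTower ℚ (IntermediateField.adjoin ℚ {w}) k :=
        IsScalarTower.of_algebraMap_eq fun _ => rfl
      exact ⟨_, (Module.finrank_mul_finrank ℚ (IntermediateField.adjoin ℚ {w}) k).symm⟩
    rcases (Nat.dvd_prime Nat.prime_two).1 hdvd with h1 | h1
    · exfalso
      rw [IntermediateField.finrank_eq_one_iff, IntermediateField.adjoin_simple_eq_bot_iff,
        IntermediateField.mem_bot] at h1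
      obtain ⟨a, ha⟩ := h1
      have h2 : (a : ℂ) ^ 2 = 5 := by rw [← hw, ← ha]; rfl
      have h3 : a ^ 2 = 5 := by exact_mod_cast h2
      have h4 : ¬ IsSquare (5 : ℚ) := by
        rw [show (5 : ℚ) = ((5 : ℕ) : ℚ) by norm_num, Rat.isSquare_natCast_iff]
        exact (Nat.prime_iff.1 (by norm_num : Nat.Prime 5)).not_isSquare
      exact h4 ⟨a, by rw [← h3]; ring⟩
    · exact h1
  have heq : IntermediateField.adjoin ℚ {w} = k :=
    IntermediateField.eq_of_le_of_finrank_eq hle (by rw [hd, hk])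
  rw [← heq] at hz
  apply hne
  refine IntermediateField.adjoin_induction ℚ (p := fun x _ => (starRingEnd ℂ) x = x)
    ?_ ?_ ?_ ?_ ?_ hz
  · intro x hx
    rw [Set.mem_singleton_iff.1 hx]
    exact conj_sqrt hw
  · intro q
    show (starRingEnd ℂ) (algebraMap ℚ ℂ q) = algebraMap ℚ ℂ q
    rw [show algebraMap ℚ ℂ q = ((q : ℝ) : ℂ) by simp]
    exact Complex.conj_ofReal _
  · intro x y _ _ hx hy
    rw [map_add, hx, hy]
  · intro x _ hx
    rw [map_inv₀, hx]
  · intro x y _ _ hx hy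
    rw [map_mul, hx, hy]

/-- Restriction of automorphisms. -/
theorem exists_res {k L K : IntermediateField ℚ ℂ} (hL : k ≤ L) (hLK : L ≤ K) (hK : k ≤ K)
    (hG : IsGalois k (IntermediateField.extendScalars hL)) :
    ∃ res : MuCyc.Gal hK →* MuCyc.Gal hL, ∀ (s : MuCyc.Gal hK)
      (x : IntermediateField.extendScalars hL) (x' : IntermediateField.extendScalars hK),
      (x' : ℂ) = x → ((s x' : IntermediateField.extendScalars hK) : ℂ) =
        (res s x : IntermediateField.extendScalars hL) := by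
  have hE : IntermediateField.extendScalars hL ≤ IntermediateField.extendScalars hK :=
    fun x hx => hLK hx
  let L₀ : IntermediateField k (IntermediateField.extendScalars hK) :=
    IntermediateField.restrict hE
  let e : IntermediateField.extendScalars hL ≃ₐ[k] L₀ := IntermediateField.restrictAlgEquiv hE
  have hg₀ : IsGalois k L₀ := IsGalois.of_algEquiv e
  refine ⟨((AlgEquiv.autCongr e.symm).toMonoidHom).comp
    (AlgEquiv.restrictNormalHom (F := k) (K₁ := IntermediateField.extendScalars hK) L₀), ?_⟩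
  intro s x x' hx
  have h3 := AlgEquiv.restrictNormal_commutes s L₀ (e x)
  have h4 : (algebraMap L₀ (IntermediateField.extendScalars hK)) (e x) = x' := by
    apply Subtype.ext
    rw [hx]
    rfl
  rw [h4] at h3
  rw [← h3]
  show _ = ((e.symm ((AlgEquiv.restrictNormal s L₀) (e x)) : IntermediateField.extendScalars hL) :
    ℂ)
  have h5 : ∀ y : L₀, ((e.symm y : IntermediateField.extendScalars hL) : ℂ) =
      ((algebraMap L₀ (IntermediateField.extendScalars hK)) y :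
        IntermediateField.extendScalars hK) := by
    intro y
    obtain ⟨z, rfl⟩ := e.surjective y
    rw [e.symm_apply_apply]
    rfl
  rw [h5]


/-- Adjoining the fifth roots of unity. -/
lemma fld (hNRM : _root_.Pool.Agent.VB.Sb_NRM) (k K : IntermediateField ℚ ℂ) (h : k ≤ K)
    (hb : BsA 5 h) : ¬ 5 ∣ Module.finrank ℚ K ∧
    ∃ (K₁ : IntermediateField ℚ ℂ) (hK₁ : k ≤ K₁), K ≤ K₁ ∧ BsA 5 hK₁ ∧
    (∃ ζ ∈ K₁, IsPrimitiveRoot ζ 5) ∧ ¬ 5 ∣ Module.finrank ℚ K₁ ∧
    ((∀ z ∈ K, (starRingEnd ℂ) z ∈ K) → ∀ z ∈ K₁, (starRingEnd ℂ) z ∈ K₁) := by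
  have := hb.fin
  have hfk : FiniteDimensional ℚ k :=
    Module.finite_of_finrank_pos (by rw [hb.k2]; norm_num)
  have hm : ∀ (M : IntermediateField ℚ ℂ) (hM : k ≤ M),
      2 * Module.finrank k (IntermediateField.extendScalars hM) = Module.finrank ℚ M := by
    intro M hM
    have h1 : Module.finrank ℚ k * Module.finrank k (IntermediateField.extendScalars hM) =
        Module.finrank ℚ M :=
      Module.finrank_mul_finrank ℚ k (IntermediateField.extendScalars hM)
    rw [← h1, hb.k2]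
  have hp5 : Nat.Prime 5 := by norm_num
  have hd : ¬ 5 ∣ Module.finrank ℚ K := by
    rw [← hm K h, hp5.dvd_mul]
    rintro (h1 | h1)
    · omega
    · exact hb.cop h1
  refine ⟨hd, ?_⟩
  obtain ⟨ζ, hζ⟩ : ∃ ζ : ℂ, IsPrimitiveRoot ζ 5 :=
    ⟨_, Complex.isPrimitiveRoot_exp 5 (by norm_num)⟩
  obtain ⟨hfd, hk₁, hgal, hab⟩ := _root_.Pool.Agent.VB.abE_zeta hNRM 5 (by norm_num)
    (⟨h, hb.gal, hb.ab⟩ : _root_.Pool.Agent.VB.AbE k K) ζ hζ
  set K₁ := K ⊔ IntermediateField.adjoin ℚ {ζ} with hK₁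
  have hint : IsIntegral ℚ ζ := by
    have : IsIntegral ℤ ζ := hζ.isIntegral (by norm_num)
    exact this.tower_top
  have h4 : Module.finrank ℚ (IntermediateField.adjoin ℚ {ζ}) = 4 := by
    rw [IntermediateField.adjoin.finrank hint,
      ← Polynomial.cyclotomic_eq_minpoly_rat hζ (by norm_num),
      Polynomial.natDegree_cyclotomic, Nat.totient_prime hp5]
  have hle : K ≤ K₁ := le_sup_left
  have hmm : Module.finrank ℚ K * Module.finrank K (IntermediateField.extendScalars hle) =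
      Module.finrank ℚ K₁ :=
    Module.finrank_mul_finrank ℚ K (IntermediateField.extendScalars hle)
  have h5 : Module.finrank ℚ K₁ ≤ Module.finrank ℚ K * 4 := by
    rw [← h4]
    exact IntermediateField.finrank_sup_le K _
  have hpos : 0 < Module.finrank ℚ K := Module.finrank_pos
  have hpos₁ : 0 < Module.finrank ℚ K₁ := Module.finrank_pos
  have h6 : Module.finrank K (IntermediateField.extendScalars hle) ≤ 4 := by
    rw [← hmm] at h5
    exact Nat.le_of_mul_le_mul_left h5 hpos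
  have h7 : 0 < Module.finrank K (IntermediateField.extendScalars hle) := by
    rw [← hmm] at hpos₁
    exact Nat.pos_of_ne_zero (fun h8 => by rw [h8, mul_zero] at hpos₁; exact absurd hpos₁ (lt_irrefl 0))
  have hd₁ : ¬ 5 ∣ Module.finrank ℚ K₁ := by
    rw [← hmm, hp5.dvd_mul]
    rintro (h1 | h1)
    · exact hd h1
    · exact absurd (Nat.le_of_dvd h7 h1) (by omega)
  have hζK : ζ ∈ K₁ := (le_sup_right : IntermediateField.adjoin ℚ {ζ} ≤ K₁)
    (IntermediateField.mem_adjoin_simple_self ℚ ζ)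
  refine ⟨K₁, hk₁, hle, ⟨hfd, hb.k2, hb.im, hgal, hab, ?_⟩, ⟨ζ, hζK, hζ⟩, hd₁, ?_⟩
  · intro h1
    apply hd₁
    rw [← hm K₁ hk₁]
    exact h1.mul_left 2
  · intro hst
    let c : ℂ →ₐ[ℚ] ℂ := (Complex.conjAe.toAlgHom).restrictScalars ℚ
    have h8 : K₁ ≤ K₁.comap c := by
      rw [hK₁]
      refine sup_le ?_ ?_
      · intro x hx
        exact (le_sup_left : K ≤ K ⊔ IntermediateField.adjoin ℚ {ζ}) (hst x hx)
      · rw [IntermediateField.adjoin_simple_le_iff]
        show (starRingEnd ℂ) ζ ∈ K ⊔ IntermediateField.adjoin ℚ {ζ}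
        have h9 : (starRingEnd ℂ) ζ = ζ⁻¹ := by
          rw [← Complex.inv_eq_conj]
          exact Complex.norm_eq_one_of_pow_eq_one hζ.pow_eq_one (by norm_num)
        rw [h9]
        exact inv_mem hζK
    intro z hz
    exact h8 hz

/-- `s' = φ s φ⁻¹` on `K` -/
def Pr {k K : IntermediateField ℚ ℂ} {h : k ≤ K} (φ : ℂ → ℂ) (s s' : MuCyc.Gal h) : Prop :=
  ∀ x y : IntermediateField.extendScalars h, (y : ℂ) = φ x →
    ((s' y : IntermediateField.extendScalars h) : ℂ) =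
      φ (s x : IntermediateField.extendScalars h)

lemma Pr.mul {k K : IntermediateField ℚ ℂ} {h : k ≤ K} {φ : ℂ → ℂ} {a a' b b' : MuCyc.Gal h}
    (ha : Pr φ a a') (hb : Pr φ b b') : Pr φ (a * b) (a' * b') := by
  intro x y hxy
  exact ha (b x) (b' y) (hb x y hxy)

open CNJx in
lemma exists_partner {k K : IntermediateField ℚ ℂ} (h : k ≤ K) (h2 : Module.finrank ℚ k = 2)
    (φ : ℂ → ℂ) (hφ : (∀ x, φ x = x) ∨ ∀ x, φ x = (starRingEnd ℂ) x)
    (hK : ∀ x ∈ K, φ x ∈ K) (s : MuCyc.Gal h) : ∃ s' : MuCyc.Gal h, Pr φ s s' := by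
  rcases hφ with hφ | hφ
  · refine ⟨s, fun x y hxy => ?_⟩
    have e1 : y = x := Subtype.ext (by rw [hxy, hφ])
    rw [e1, hφ]
  · have hK' : ∀ x ∈ K, cc x ∈ K := fun x hx => by
      have := hK x hx
      rwa [hφ] at this
    let eS : IntermediateField.extendScalars h ≃+* IntermediateField.extendScalars h :=
      { toFun := fun x => ⟨cc x, hK' _ x.2⟩
        invFun := fun x => ⟨cc x, hK' _ x.2⟩
        left_inv := fun x => Subtype.ext (cc_cc _)
        right_inv := fun x => Subtype.ext (cc_cc _)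
        map_mul' := fun x y => Subtype.ext (map_mul cc _ _)
        map_add' := fun x y => Subtype.ext (map_add cc _ _) }
    have heS2 : ∀ x : IntermediateField.extendScalars h, eS (eS x) = x := fun x =>
      Subtype.ext (cc_cc _)
    let s' : MuCyc.Gal h := AlgEquiv.ofRingEquiv (f := (eS.trans
      (s : IntermediateField.extendScalars h ≃+* IntermediateField.extendScalars h)).trans eS)
      (by
        intro a
        have ha : cc (a : ℂ) ∈ k := (quad_stable k h2 _).1 a.2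
        have e1 : eS (algebraMap k (IntermediateField.extendScalars h) a) =
            algebraMap k (IntermediateField.extendScalars h) ⟨cc a, ha⟩ := Subtype.ext rfl
        show eS (s (eS (algebraMap k (IntermediateField.extendScalars h) a))) = _
        rw [e1, s.commutes, ← e1, heS2])
    have hs' : ∀ x, s' x = eS (s (eS x)) := fun _ => rfl
    refine ⟨s', fun x y hxy => ?_⟩
    have e1 : y = eS x := Subtype.ext (by rw [hxy, hφ]; rfl)
    have e2 : s' y = eS (s x) := by rw [e1, hs', heS2]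
    rw [e2, hφ]
    rfl

/-- the relation between `s`, `s'` and `z` -/
def Rel {k K : IntermediateField ℚ ℂ} (h : k ≤ K) (φ : ℂ → ℂ) (b : ℕ) (z : MuCyc.Gal h) : Prop :=
  ∀ s s' : MuCyc.Gal h, Pr φ s s' → ∀ w : IntermediateField.extendScalars h, w ^ 2 = 5 →
    (s w = w → s' ^ 5 ^ b = s) ∧ (s w = -w → s' ^ 5 ^ b = s * z)

lemma z_sq {k K : IntermediateField ℚ ℂ} (h : k ≤ K) (hb : BsA 5 h) (φ : ℂ → ℂ)
    (hφ : (∀ x, φ x = x) ∨ ∀ x, φ x = (starRingEnd ℂ) x) (hK : ∀ x ∈ K, φ x ∈ K) (b : ℕ)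
    (z : MuCyc.Gal h) (hrel : Rel h φ b z) (V : IntermediateField.extendScalars h)
    (hV : V ^ 2 = 5) : z ^ 2 = 1 := by
  have hfin := hb.fin
  have hgal := hb.gal
  have fdk : FiniteDimensional k (IntermediateField.extendScalars h) := by
    have h1 : FiniteDimensional ℚ (IntermediateField.extendScalars h) := hfin
    exact Module.Finite.of_restrictScalars_finite ℚ k _
  obtain ⟨s₀, hs₀⟩ : ∃ s₀ : MuCyc.Gal h, s₀ V = -V := by
    by_contra hcon
    push Not at hcon
    have h1 : ∀ s : MuCyc.Gal h, s V = V := by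
      intro s
      have e8 : (s V) ^ 2 = V ^ 2 := by rw [← map_pow, hV, map_ofNat]
      rcases sq_eq_sq_iff_eq_or_eq_neg.1 e8 with e9 | e9
      · exact e9
      · exact absurd e9 (hcon s)
    obtain ⟨a, ha⟩ := (IsGalois.mem_range_algebraMap_iff_fixed V).2 h1
    have h7 : (a : ℂ) = (V : ℂ) := congrArg Subtype.val ha
    have h8 : (V : ℂ) ^ 2 = 5 := congrArg Subtype.val hV
    apply sqrt_notMem hb.k2 hb.im h8
    rw [← h7]
    exact a.2
  obtain ⟨t₀, ht₀⟩ := exists_partner h hb.k2 φ hφ hK s₀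
  have e1 := (hrel s₀ t₀ ht₀ V hV).2 hs₀
  have e2 := (hrel (s₀ * s₀) (t₀ * t₀) (ht₀.mul ht₀) V hV).1 (by
    show s₀ (s₀ V) = V
    rw [hs₀, map_neg, hs₀, neg_neg])
  rw [(Commute.refl t₀).mul_pow, e1] at e2
  have e4 : s₀ * z * (s₀ * z) = s₀ * s₀ * (z * z) := by
    rw [mul_assoc, ← mul_assoc z s₀ z, hb.ab z s₀, mul_assoc s₀ z z, ← mul_assoc]
  rw [e4] at e2
  rw [pow_two]
  exact mul_eq_left.1 e2

/-- a power which is inverse to the power with exponent `5 ^ b` -/
lemma inv_pow {G : Type*} [Group G] [Finite G] (hd : ¬ 5 ∣ Nat.card G) (b : ℕ) :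
    ∃ m : ℕ, ∀ g : G, (g ^ m) ^ 5 ^ b = g := by
  have hc : Nat.Coprime (5 ^ b) (Nat.card G) :=
    Nat.Coprime.pow_left b ((Nat.Prime.coprime_iff_not_dvd (by norm_num)).2 hd)
  have hpos : 0 < Nat.card G := Nat.card_pos
  have ht : 0 < Nat.totient (Nat.card G) := Nat.totient_pos.2 hpos
  refine ⟨(5 ^ b) ^ (Nat.totient (Nat.card G) - 1), fun g => ?_⟩
  have h1 : (5 ^ b) ^ (Nat.totient (Nat.card G) - 1) * 5 ^ b ≡ 1 [MOD Nat.card G] := by
    have h2 := Nat.ModEq.pow_totient hc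
    rw [← pow_succ, Nat.sub_add_cancel ht]
    exact h2
  have h3 : (5 ^ b) ^ (Nat.totient (Nat.card G) - 1) * 5 ^ b ≡ 1 [MOD orderOf g] :=
    h1.of_dvd (orderOf_dvd_natCard g)
  have h4 := pow_eq_pow_iff_modEq.2 h3
  rw [← pow_mul, h4, pow_one]

/-- the good characters -/
theorem good (hP5 : Sf_P5A) (hIFM : Sf_IFM) (hNRM : _root_.Pool.Agent.VB.Sb_NRM)
    [Fact (Nat.Prime 5)]
    {k K : IntermediateField ℚ ℂ} (h : k ≤ K) (hb : BsA 5 h) (φ : ℂ → ℂ)
    (hφ : (∀ x, φ x = x) ∨ ∀ x, φ x = (starRingEnd ℂ) x) (hK : ∀ x ∈ K, φ x ∈ K) (b : ℕ)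
    (z : MuCyc.Gal h) (hrel : Rel h φ b z) (w : ℂ) (hwK : w ∈ K) (hw5 : w ^ 2 = 5)
    (χ : MuCyc.Chr 5 h) (hχz : χ z ≠ 1) : MuCyc.MuZeroC 5 h χ := by
  have hfd := hb.fin
  obtain ⟨hd, K₁, hK₁, hle, hb₁, hz, hd₁, hst₁⟩ := fld hNRM k K h hb
  have hfd₁ := hb₁.fin
  have hgal₁ := hb₁.gal
  have fdk₁ : FiniteDimensional k (IntermediateField.extendScalars hK₁) := by
    have h1 : FiniteDimensional ℚ (IntermediateField.extendScalars hK₁) := hfd₁
    exact Module.Finite.of_restrictScalars_finite ℚ k _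
  obtain ⟨r, hr⟩ := exists_res h hle hK₁ hb.gal
  let V : IntermediateField.extendScalars h := ⟨w, hwK⟩
  have hV : V ^ 2 = 5 := Subtype.ext hw5
  let W : IntermediateField.extendScalars hK₁ := ⟨w, hle hwK⟩
  have hW : W ^ 2 = 5 := Subtype.ext hw5
  have hz2 := z_sq h hb φ hφ hK b z hrel V hV
  have hχz' : ((χ z : (AlgebraicClosure (ZMod 5))ˣ) : AlgebraicClosure (ZMod 5)) = -1 := by
    have e7 : ((χ z : (AlgebraicClosure (ZMod 5))ˣ) : AlgebraicClosure (ZMod 5)) ^ 2 =
        1 ^ 2 := by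
      rw [← Units.val_pow_eq_pow_val, ← map_pow, hz2, map_one, one_pow]
      rfl
    rcases sq_eq_sq_iff_eq_or_eq_neg.1 e7 with e8 | e8
    · exact absurd (Units.ext e8) hχz
    · exact e8
  let χ' : MuCyc.Chr 5 hK₁ := χ.comp r
  have hχ' : ∀ s, χ' s = χ (r s) := fun _ => rfl
  refine hIFM 5 (by norm_num) k K K₁ h hK₁ hle hb₁.fin hb₁.gal hb₁.ab hd₁ χ χ' ?_ ?_
  · intro s s' hss
    rw [hχ']
    congr 1
    apply AlgEquiv.ext
    intro x
    apply Subtype.ext
    rw [← hss x ⟨x, hle x.2⟩ rfl]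
    exact (hr s' x ⟨x, hle x.2⟩ rfl).symm
  · obtain ⟨ω, hω, hω1, -⟩ := exists_omega 5 hK₁ hz
    obtain ⟨ζ₀, hζ₀, hpr⟩ := id hz
    let ζ : IntermediateField.extendScalars hK₁ := ⟨ζ₀, hζ₀⟩
    have hζ : IsPrimitiveRoot ζ 5 := by
      refine IsPrimitiveRoot.of_map_of_injective
        (f := algebraMap (IntermediateField.extendScalars hK₁) ℂ) ?_
        (algebraMap (IntermediateField.extendScalars hK₁) ℂ).injective
      exact hpr
    have key : ∀ s s' : MuCyc.Gal hK₁, Pr φ (r s) (r s') →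
        (χ (r s')) ^ 5 ^ b = χ (r s) * (ω s) ^ 2 := by
      intro s s' hss
      obtain ⟨c, hc1, hc2⟩ := hω1 s
      have hrs : ((r s V : IntermediateField.extendScalars h) : ℂ) =
          (s W : IntermediateField.extendScalars hK₁) := (hr s V W rfl).symm
      rcases _root_.Pool.Agent.OB.QRT.wsq (F := AlgebraicClosure (ZMod 5))
        (s : IntermediateField.extendScalars hK₁ →+* IntermediateField.extendScalars hK₁)
        ζ hζ W hW c (hc1 ζ hζ.pow_eq_one) with ⟨e1, e2⟩ | ⟨e1, e2⟩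
      · have e3 : s W = W := e1
        rw [e3] at hrs
        have e4 : r s V = V := Subtype.ext hrs
        have e5 := (hrel _ _ hss V hV).1 e4
        have e6 : (ω s) ^ 2 = 1 := Units.ext (by
          rw [Units.val_pow_eq_pow_val, hc2, e2]
          rfl)
        rw [← map_pow, e5, e6, mul_one]
      · have e3 : s W = -W := e1
        rw [e3] at hrs
        have e4 : r s V = -V := Subtype.ext hrs
        have e5 := (hrel _ _ hss V hV).2 e4
        have e6 : (ω s) ^ 2 = χ z := Units.ext (by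
          rw [Units.val_pow_eq_pow_val, hc2, e2, hχz'])
        rw [← map_pow, e5, e6, map_mul]
    refine hP5 5 rfl k K₁ hK₁ hb₁ hz χ' (χ' * ω ^ 2) ((hω _ _ _).2 rfl) ⟨b, ?_⟩ 0 χ' ?_
    · rcases hφ with hφ | hφ
      · left
        apply MonoidHom.ext
        intro s
        show χ (r s) * (ω s) ^ 2 = (χ (r s)) ^ 5 ^ b
        rw [key s s]
        intro x y hxy
        have e1 : y = x := Subtype.ext (by rw [hxy, hφ])
        rw [e1, hφ]
      · right
        have hst : ∀ z ∈ K, (starRingEnd ℂ) z ∈ K := fun z hz => by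
          have := hK z hz
          rwa [hφ] at this
        have hcd : ¬ 5 ∣ Nat.card (MuCyc.Gal hK₁) := by
          have e1 : Nat.card (MuCyc.Gal hK₁) =
              Module.finrank k (IntermediateField.extendScalars hK₁) :=
            IsGalois.card_aut_eq_finrank k (IntermediateField.extendScalars hK₁)
          rw [e1]
          exact hb₁.cop
        obtain ⟨m, hm⟩ := inv_pow hcd b
        have hψ : ∀ s, (((χ' * ω ^ 2) s) ^ m) ^ 5 ^ b = (χ' * ω ^ 2) s := by
          intro s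
          rw [← map_pow, ← map_pow, hm]
        refine ⟨hst₁ hst, (χ' * ω ^ 2) ^ m, ?_, ?_⟩
        · intro s s' hss
          have h1 : Pr φ (r s') (r s) := by
            intro x y hxy
            rw [hφ] at hxy
            have e1 := hss ⟨x, hle x.2⟩ ⟨y, hle y.2⟩ hxy
            rw [hr s y ⟨y, hle y.2⟩ rfl, hr s' x ⟨x, hle x.2⟩ rfl] at e1
            rw [hφ]
            exact e1
          have h2 := key s' s h1
          have h3 : (((χ' * ω ^ 2) s') ^ m) ^ 5 ^ b = (χ (r s)) ^ 5 ^ b := by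
            rw [hψ, h2]
            rfl
          have hE : ExpChar (AlgebraicClosure (ZMod 5)) 5 := ExpChar.prime (by norm_num)
          show ((χ' * ω ^ 2) s') ^ m = χ (r s)
          apply Units.ext
          apply iterateFrobenius_inj (AlgebraicClosure (ZMod 5)) 5 b
          rw [iterateFrobenius_def, iterateFrobenius_def, ← Units.val_pow_eq_pow_val,
            ← Units.val_pow_eq_pow_val, h3]
        · apply MonoidHom.ext
          intro s
          exact (hψ s).symm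
    · intro s c _
      rw [pow_zero, mul_one]

end U5x

open U5x in
/-- THE CLAUSE -/
theorem t_U5 (hP5 : Sf_P5A) (hIFM : Sf_IFM) (hREL : Sf_REL)
    (hNRM : _root_.Pool.Agent.VB.Sb_NRM) (hPEX : OTE.Se_PEX) (hTCQ : VB.Sb_TCQ)
    (hLAY : Sf_LAY) :
    ∀ [Fact (Nat.Prime 5)] (k K : IntermediateField ℚ ℂ) (h : k ≤ K), BsA 5 h →
    ∀ (z : MuCyc.Gal h) (w : ℂ), w ∈ K → w ^ 2 = 5 → ∀ (b : ℕ) (φ : ℂ → ℂ),
    ((∀ x, φ x = x) ∨ ∀ x, φ x = (starRingEnd ℂ) x) → (∀ x ∈ K, φ x ∈ K) → Rel h φ b z →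
    (∀ χ : MuCyc.Chr 5 h, χ z ≠ 1 → MuCyc.MuZeroC 5 h χ) ∧
    ∀ K₀ : IntermediateField ℚ ℂ, k ≤ K₀ → K₀ ≤ K →
      (∀ x : IntermediateField.extendScalars h, z x = x → (x : ℂ) ∈ K₀) →
      ∀ (E : IntermediateField ℚ ℂ) (hE : k ≤ E), FiniteDimensional ℚ E →
        IsGalois k (IntermediateField.extendScalars hE) →
        (∃ a : ℕ, Module.finrank k (IntermediateField.extendScalars hE) = 5 ^ a) →
        ∃ C : ℕ, ∀ (n : ℕ) (Q : IntermediateField ℚ ℂ), MuCyc.IsLayer 5 n Q →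
          padicValNat 5 (MuCyc.classNo (K ⊔ E ⊔ Q)) ≤
            padicValNat 5 (MuCyc.classNo (K₀ ⊔ E ⊔ Q)) + C * (n + 1) ^ C := by
  intro _ k K h hb z w hwK hw5 b φ hφ hK hrel
  have hgood : ∀ χ : MuCyc.Chr 5 h, χ z ≠ 1 → MuCyc.MuZeroC 5 h χ :=
    fun χ hχ => good hP5 hIFM hNRM h hb φ hφ hK b z hrel w hwK hw5 χ hχ
  refine ⟨hgood, ?_⟩
  intro K₀ hk₀ hK₀ hfix E hE hfE hGE hdE
  have hfd := hb.fin
  have hgal := hb.gal
  have fdk : FiniteDimensional k (IntermediateField.extendScalars h) := by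
    have h1 : FiniteDimensional ℚ (IntermediateField.extendScalars h) := hfd
    exact Module.Finite.of_restrictScalars_finite ℚ k _
  have hd : ¬ 5 ∣ Module.finrank ℚ K := (fld hNRM k K h hb).1
  obtain ⟨C₀, hC₀⟩ := hREL 5 (by norm_num) k K₀ K hk₀ hK₀ h hb.fin hb.gal hb.ab hd (by
    rintro χ ⟨s, hs, hχ⟩
    refine hgood χ fun e6 => hχ ?_
    have e8 : s ∈ Subgroup.zpowers z := by
      have e9 : s ∈ (IntermediateField.fixedField (Subgroup.zpowers z)).fixingSubgroup := by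
        rw [IntermediateField.mem_fixingSubgroup_iff]
        intro x hx
        exact hs x (hfix x (hx ⟨z, Subgroup.mem_zpowers z⟩))
      rwa [IntermediateField.fixingSubgroup_fixedField] at e9
    obtain ⟨i, rfl⟩ := e8
    show χ (z ^ i) = 1
    rw [map_zpow, e6, one_zpow])
  have hfK₀ : FiniteDimensional ℚ K₀ :=
    FiniteDimensional.of_injective (IntermediateField.inclusion hK₀).toLinearMap
      (IntermediateField.inclusion hK₀).injective
  have hkF' : K₀ = k ⊔ K₀ := (sup_eq_right.2 hk₀).symm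
  have hM : K₀ ≤ E ⊔ K₀ := le_sup_right
  have hBM := RI.BCH_thm.1 k E K₀ K₀ (E ⊔ K₀) hE hM hkF' rfl hGE
  have hC0 : OTE.C0 5 K₀ K (E ⊔ K₀) := by
    refine ⟨hK₀, hM, ?_, ?_, hBM.1, ?_, ?_⟩
    · exact (RI.BCH_thm.1 k K K₀ K₀ K h hK₀ hkF' (sup_eq_left.2 hK₀).symm hb.gal).1
    · intro h0
      have h4 := RI.CHIEF.finrank_mul hk₀ hK₀
      exact hb.cop (h4 ▸ h0.mul_left _)
    · obtain ⟨c, hc⟩ := hdE
      have h5 := hBM.2
      rw [hc] at h5
      obtain ⟨d, -, hd⟩ := (Nat.dvd_prime_pow (by norm_num)).1 h5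
      exact ⟨d, hd⟩
    · exact hTCQ k K₀ hb.k2 hb.im hk₀
  obtain ⟨Bp, hlay, hmono, hu⟩ := hLAY 5 (by norm_num)
  have hfBp : ∀ n, FiniteDimensional ℚ (Bp n) := fun n => (RI.LAY_thm 5 n (Bp n) (hlay n)).1
  have hfM : FiniteDimensional ℚ ↥(E ⊔ K₀) := IntermediateField.finiteDimensional_sup E K₀
  obtain ⟨C₁, c₁, hC₁⟩ := hPEX 5 K₀ K (E ⊔ K₀) Bp hC0 hlay hmono
    ⟨C₀, 2, fun n => hC₀ n (Bp n) (hlay n)⟩
  refine ⟨C₁ + c₁, fun m Q hQ => ?_⟩
  obtain rfl : Q = Bp m := hu m Q hQ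
  have e1 : K ⊔ E ⊔ Bp m = K ⊔ (E ⊔ K₀ ⊔ Bp m) := by
    apply le_antisymm
    · exact sup_le (sup_le le_sup_left
        (le_sup_of_le_right (le_sup_of_le_left le_sup_left)))
        (le_sup_of_le_right le_sup_right)
    · exact sup_le (le_sup_of_le_left le_sup_left) (sup_le (sup_le
        (le_sup_of_le_left le_sup_right) (hK₀.trans (le_sup_of_le_left le_sup_left)))
        le_sup_right)
  have e2 : K₀ ⊔ E ⊔ Bp m = E ⊔ K₀ ⊔ Bp m := by rw [sup_comm K₀ E]
  have h5 := hC₁ m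
  rw [e1, e2]
  refine h5.trans (Nat.add_le_add_left ?_ _)
  exact Nat.mul_le_mul (by omega) (Nat.pow_le_pow_right (Nat.succ_pos m) (by omega))

end Pool.Agent.OQM

namespace Pool.Agent.MuBr

/-- THE CLAUSE, no hypotheses. -/
theorem r_U5 : S_U5 := by
  intro _ k K h hk hK z hF
  obtain ⟨⟨w, hwK, hw5⟩, b, φ, hφ, hKφ, hrel⟩ := hF
  obtain ⟨h1, h2⟩ := Pool.Agent.OQM.t_U5 Pool.Agent.OQM.p5A Pool.Agent.OTF.r_IFM
    Pool.Agent.OTF.r_REL _root_.Pool.Agent.VB.v_NRM Pool.Agent.OTE.e_PEX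
    _root_.Pool.Agent.VB.tb_TCQ Pool.Agent.OTF.r_LAY k K h
    ⟨hK.fin, hk.deg, hk.imag, hK.gal, hK.comm, hK.prime_to⟩ z w hwK hw5 b φ hφ hKφ hrel
  exact ⟨fun χ hχ => br_mu.2 (h1 χ hχ), fun K₀ hk₀ hK₀ hfix E hE hG =>
    ⟨h2 K₀ hk₀ hK₀ hfix E hE hG.fin hG.gal hG.deg⟩⟩

end Pool.Agent.MuBr
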