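import Pool.Agent.OWM.Fin
import Pool.Agent.OQM.U5
import Pool.Agent.OQM.AB5
import Pool.Agent.OQM.CY5
import Pool.Agent.OQM.Char

/-!
# Assembly of the clauses on `p = 5` (helper60)
-/

set_option autoImplicit false

open NumberField IntermediateField

namespace Pool.Agent.MuBr

theorem five_ab : ∀ [Fact (Nat.Prime 5)] (k K : IntermediateField ℚ ℂ) (h : k ≤ K),
    ImQuadratic k → Abelian 5 h → ∀ w : ℂ, w ^ 2 = 5 → ∀ (hw : adjoin ℚ {w} ≤ K), FinAb hw →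
    (∀ (χ : ((extendScalars h) ≃ₐ[k] (extendScalars h)) →* (AlgebraicClosure (ZMod 5))ˣ)
      (s : (extendScalars h) ≃ₐ[k] (extendScalars h)),
      (∀ (x : extendScalars h) (y : K), (y : ℂ) = x →
        (∀ σ τ : K ≃ₐ[ℚ] K, σ (τ y) = τ (σ y)) → s x = x) → χ s ≠ 1 → MuZeroC 5 h χ) ∧
    ∀ K' : IntermediateField ℚ ℂ, k ≤ K' → K' ≤ K →
      (∀ y : K, (∀ σ τ : K ≃ₐ[ℚ] K, σ (τ y) = τ (σ y)) → (y : ℂ) ∈ K') →
      ∀ (E : IntermediateField ℚ ℂ) (hE : k ≤ E), PGal 5 hE → MuLEC 5 (K ⊔ E) (K' ⊔ E) := by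
  intro _ k K h hk hK w hw2 hw hA
  exact ⟨fun χ s hs hχ => ab5_char r_U5 (t_AB5 r_U5) k K h hk hK w hw2 hw hA χ s hs hχ,
    fun K' h1 h2 h3 E hE hP => (t_AB5 r_U5 k K h hk hK w hw2 hw hA).2 K' h1 h2 h3 E hE hP⟩

theorem five_cy : S_CY5 := t_CY5 r_U5

end Pool.Agent.MuBr
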