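import Pool.Agent.OWM.C03

/-!
# The criterion for `p = 5`, all imaginary quadratic fields (after `OBF.tf_P5`)
-/

set_option autoImplicit false

open NumberField IsDedekindDomain Finset
open scoped nonZeroDivisors Pointwise

namespace Pool.Agent.OQM

open _root_.Pool.Agent.RI _root_.Pool.Agent.RID _root_.Pool.Agent.MU3 _root_.Pool.Agent.MUXK
  _root_.Pool.Agent.MUXZ _root_.Pool.Agent.NSI _root_.Pool.Agent.OB _root_.Pool.Agent.OBF

open CHIx

/-- `k` is an imaginary quadratic field; `K/k` is abelian of degree prime to `p`. -/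
structure BsA (p : ℕ) {k K : IntermediateField ℚ ℂ} (h : k ≤ K) : Prop where
  fin : FiniteDimensional ℚ K
  k2 : Module.finrank ℚ k = 2
  im : ∃ z ∈ k, (starRingEnd ℂ) z ≠ z
  gal : IsGalois k (IntermediateField.extendScalars h)
  ab : ∀ σ τ : (IntermediateField.extendScalars h) ≃ₐ[k] (IntermediateField.extendScalars h),
    σ * τ = τ * σ
  cop : ¬ p ∣ Module.finrank k (IntermediateField.extendScalars h)

/-- The criterion for `p = 5`. -/
def Sf_P5A : Prop := ∀ (p : ℕ) [Fact p.Prime], p = 5 → ∀ (k K : IntermediateField ℚ ℂ) (h : k ≤ K),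
  BsA p h → (∃ ζ ∈ K, IsPrimitiveRoot ζ p) → ∀ χ χ₁ : MuCyc.Chr p h,
  MuCyc.IsTwist p h χ χ₁ 2 → Reach p h χ χ₁ →
  ∀ (j : ℕ) (χ' : MuCyc.Chr p h), MuCyc.IsTwist p h χ χ' j → MuCyc.MuZeroC p h χ'

theorem tf_P5A (hLAY : Sf_LAY) (hBAX : Sq_BAX) (hNIL : OEN.O_NILA) : Sf_P5A := by
  intro p _ hp5 k K h hb hz χ χ₁ h1 hR j χ' hj
  have := hb.fin
  obtain ⟨ω, hω, hω1, hω4⟩ := exists_omega p h hz
  rw [hω] at h1 hj
  subst hj
  have hω4' : ∀ s : MuCyc.Gal h, (ω s) ^ 4 = 1 := by
    intro s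
    have h6 : (ω s) ^ (p - 1) = 1 := congrArg (fun f : MuCyc.Chr p h => f s) hω4
    have h7 : p - 1 = 4 := by omega
    rwa [h7] at h6
  have hωp : ∀ (s : MuCyc.Gal h) (a : ℕ), (ω s) ^ p ^ a = ω s := by
    intro s a
    induction a with
    | zero => rw [Nat.pow_zero, pow_one]
    | succ a ih =>
      rw [Nat.pow_succ, pow_mul, ih]
      have h7 : p = 4 + 1 := by omega
      have h8 : (ω s) ^ p = (ω s) ^ (4 + 1) := congrArg (fun n => (ω s) ^ n) h7
      rw [h8, pow_succ, hω4', one_mul]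
  -- the values of `χ₁`
  have hv : ∀ s : MuCyc.Gal h, χ₁ s = χ s * (ω s) ^ 2 := fun s =>
    congrArg (fun f : MuCyc.Chr p h => f s) h1
  have hper : ∀ i : ℕ, χ * ω ^ (i + 4) = χ * ω ^ i := by
    intro i
    apply MonoidHom.ext
    intro s
    show χ s * (ω s) ^ (i + 4) = χ s * (ω s) ^ i
    rw [pow_add, hω4', mul_one]
  have hstep : ∀ i : ℕ, MuCyc.MuZeroC p h (χ * ω ^ i) → MuCyc.MuZeroC p h (χ * ω ^ (i + 2)) := by
    intro i hi
    obtain ⟨a, hR⟩ := hR
    rcases hR with hR | ⟨hK, χ₂, hc2, hR⟩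
    · have h5 := frob_iter p h _ hi a
      have h6 : (χ * ω ^ i) ^ p ^ a = χ * ω ^ (i + 2) := by
        apply MonoidHom.ext
        intro s
        show (χ s * (ω s) ^ i) ^ p ^ a = χ s * (ω s) ^ (i + 2)
        have h7 : (χ s) ^ p ^ a = χ s * (ω s) ^ 2 := by
          rw [← hv, hR]
          rfl
        rw [mul_pow, h7, ← pow_mul, mul_comm i, pow_mul, hωp, pow_add, mul_assoc,
          mul_comm ((ω s) ^ 2)]
      rwa [h6] at h5
    · -- `ω (s') = ω (s)` for conjugate `s`, `s'`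
      have hωc : ∀ s s' : MuCyc.Gal h, (∀ x y : IntermediateField.extendScalars h,
          (y : ℂ) = (starRingEnd ℂ) x → ((s y : IntermediateField.extendScalars h) : ℂ) =
            (starRingEnd ℂ) (s' x : IntermediateField.extendScalars h)) → ω s' = ω s := by
        intro s s' hss
        obtain ⟨c, hc1, hc2⟩ := hω1 s
        have h5 : MuCyc.IsTwist p h 1 ω 1 := (hω 1 ω 1).2 (by
          apply MonoidHom.ext
          intro s
          show ω s = 1 * (ω s) ^ 1
          rw [one_mul, pow_one])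
        apply Units.ext
        rw [hc2]
        have h6 := h5 s' c (by
          intro z hz
          have hy : (starRingEnd ℂ) (z : ℂ) ∈ IntermediateField.extendScalars h := hK _ z.2
          have h7 := hss z ⟨_, hy⟩ rfl
          have h8 : (⟨_, hy⟩ : IntermediateField.extendScalars h) ^ p = 1 := by
            apply Subtype.ext
            show ((starRingEnd ℂ) (z : ℂ)) ^ p = 1
            rw [← map_pow]
            have h9 : (z : ℂ) ^ p = 1 := congrArg Subtype.val hz
            rw [h9, map_one]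
          rw [hc1 _ h8] at h7
          apply Subtype.ext
          have h9 : ((starRingEnd ℂ) (z : ℂ)) ^ c = (starRingEnd ℂ) ((s' z : _) : ℂ) := h7
          rw [← map_pow] at h9
          exact ((starRingEnd ℂ).injective h9).symm)
        rw [h6]
        simp
      have hcj : MuCyc.IsConj p h (χ * ω ^ i) (χ₂ * ω ^ i) := by
        intro s s' hss
        show χ₂ s' * (ω s') ^ i = χ s * (ω s) ^ i
        rw [hc2 s s' hss, hωc s s' hss]
      have h5 := frob_iter p h _ (conj_mu p h hb.k2 hK _ _ hcj hi) a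
      have h6 : (χ₂ * ω ^ i) ^ p ^ a = χ * ω ^ (i + 2) := by
        apply MonoidHom.ext
        intro s
        show (χ₂ s * (ω s) ^ i) ^ p ^ a = χ s * (ω s) ^ (i + 2)
        have h7 : (χ₂ s) ^ p ^ a = χ s * (ω s) ^ 2 := by
          rw [← hv, hR]
          rfl
        rw [mul_pow, h7, ← pow_mul, mul_comm i, pow_mul, hωp, pow_add, mul_assoc,
          mul_comm ((ω s) ^ 2)]
      rwa [h6] at h5
  have hstep' : ∀ i : ℕ, MuCyc.MuZeroC p h (χ * ω ^ (i + 2)) →
      MuCyc.MuZeroC p h (χ * ω ^ i) := by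
    intro i hi'
    have := hstep (i + 2) hi'
    rwa [show i + 2 + 2 = i + 4 from rfl, hper] at this
  obtain ⟨e, χ₂, he, hev, htw, hmu⟩ := OEN.one_evenA hLAY hBAX hNIL p (by omega) k K h hb.gal hb.ab
    hb.k2 hb.im hb.cop hz (χ * ω ^ j)
  rw [hω] at htw
  subst htw
  have e1 : χ * ω ^ j * ω ^ e = χ * ω ^ (j + e) := by
    apply MonoidHom.ext
    intro s
    show χ s * (ω s) ^ j * (ω s) ^ e = χ s * (ω s) ^ (j + e)
    rw [pow_add, mul_assoc]
  rw [e1] at hmu
  have : e = 0 ∨ e = 2 := by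
    obtain ⟨a, ha⟩ := hev
    omega
  rcases this with rfl | rfl
  · exact hmu
  · exact hstep' j hmu

theorem p5A : Sf_P5A :=
  tf_P5A tf_LAY _root_.Pool.Agent.OB.q_BAX (OEN.nilA _root_.Pool.Agent.OB.nil OEN.nilE)

end Pool.Agent.OQM
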