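import Pool.Agent.OQM.P5A
import Pool.Agent.OQM.St

/-!
# Statements for the clause on the primes `p = 2 q + 1` (helper96)
-/

set_option autoImplicit false

open NumberField IntermediateField

namespace Pool.Agent.OQM

/-- (PA, helper96) every branch, if `χ ^ (p ^ a) = χ ω ^ (2 e)` with `e` prime to `(p - 1) / 2`. -/
def Sf_PA : Prop := ∀ (p : ℕ) [Fact p.Prime], 5 ≤ p → ∀ (k K : IntermediateField ℚ ℂ) (h : k ≤ K),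
  BsA p h → (∃ ζ ∈ K, IsPrimitiveRoot ζ p) → ∀ (χ χ₁ : MuCyc.Chr p h) (a e : ℕ),
  Nat.Coprime e ((p - 1) / 2) → χ ^ p ^ a = χ₁ → MuCyc.IsTwist p h χ χ₁ (2 * e) →
  ∀ (j : ℕ) (χ' : MuCyc.Chr p h), MuCyc.IsTwist p h χ χ' j → MuCyc.MuZeroC p h χ'

/-- (GD) the field `K₁ = K(ζ)`, the restriction `r`, the character `ω`, and the criterion for the
characters of `Gal(K/k)`. To be proved: `theorem t_GD : Sf_PA → Sf_GD` (after `U5x.fld`, `U5x.good`). -/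
def Sf_GD : Prop := ∀ (p : ℕ) [Fact p.Prime], 5 ≤ p → ∀ (k K : IntermediateField ℚ ℂ) (h : k ≤ K),
  BsA p h → ∃ (K₁ : IntermediateField ℚ ℂ) (h₁ : k ≤ K₁) (_ : K ≤ K₁) (ζ : ℂ) (hζK : ζ ∈ K₁)
    (r : MuCyc.Gal h₁ →* MuCyc.Gal h) (ω : MuCyc.Chr p h₁),
    IsPrimitiveRoot ζ p ∧ BsA p h₁ ∧ Function.Surjective r ∧
    (∀ (s : MuCyc.Gal h₁) (x : extendScalars h) (x' : extendScalars h₁), (x' : ℂ) = x →
      ((s x' : extendScalars h₁) : ℂ) = (r s x : extendScalars h)) ∧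
    (∀ s : MuCyc.Gal h₁, ∃ c : ℕ, ((s ⟨ζ, hζK⟩ : extendScalars h₁) : ℂ) = ζ ^ c ∧
      ((ω s : (AlgebraicClosure (ZMod p))ˣ) : AlgebraicClosure (ZMod p)) = c) ∧
    ω ^ (p - 1) = 1 ∧
    ∀ (χ : MuCyc.Chr p h) (a e : ℕ), Nat.Coprime e ((p - 1) / 2) →
      (∀ s : MuCyc.Gal h₁, χ (r s) ^ p ^ a = χ (r s) * ω s ^ (2 * e)) → MuCyc.MuZeroC p h χ

/-- (SGG) the cyclic case, `p = 2 q + 1`. To be proved: `theorem t_SGG : Sf_GD → Sf_SGG`. -/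
def Sf_SGG : Prop := ∀ (p q : ℕ) [Fact p.Prime], q.Prime → Odd q → p = 2 * q + 1 →
  ∀ (k K : IntermediateField ℚ ℂ) (h : k ≤ K), BsA p h → IsCyclic (MuCyc.Gal h) →
  (∃ r : ℕ, Module.finrank k (extendScalars h) = q ^ r) →
  ∀ ζ : ℂ, IsPrimitiveRoot ζ p → ζ + ζ⁻¹ ∈ K → ∀ (χ : MuCyc.Chr p h) (s : MuCyc.Gal h),
    (∀ x : extendScalars h, (x : ℂ) = ζ + ζ⁻¹ → s x = x) → χ s ≠ 1 → MuCyc.MuZeroC p h χ

/-- (WF) the whole field. To be proved: `theorem t_WF : Sf_WF` (second half of `t_U5`, `5` replaced by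
`p`). -/
def Sf_WF : Prop := ∀ (p : ℕ) [Fact p.Prime], 5 ≤ p → ∀ (k K : IntermediateField ℚ ℂ) (h : k ≤ K),
  BsA p h → ∀ K₀ : IntermediateField ℚ ℂ, k ≤ K₀ → K₀ ≤ K →
    (∀ (χ : MuCyc.Chr p h) (s : MuCyc.Gal h), (∀ x : extendScalars h, (x : ℂ) ∈ K₀ → s x = x) →
      χ s ≠ 1 → MuCyc.MuZeroC p h χ) →
    ∀ (E : IntermediateField ℚ ℂ) (hE : k ≤ E), FiniteDimensional ℚ E →
      IsGalois k (extendScalars hE) →
      (∃ a : ℕ, Module.finrank k (extendScalars hE) = p ^ a) →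
      ∃ C : ℕ, ∀ (n : ℕ) (Q : IntermediateField ℚ ℂ), MuCyc.IsLayer p n Q →
        padicValNat p (MuCyc.classNo (K ⊔ E ⊔ Q)) ≤
          padicValNat p (MuCyc.classNo (K₀ ⊔ E ⊔ Q)) + C * (n + 1) ^ C

end Pool.Agent.OQM

namespace Pool.Agent.MuBr

/-- The new clause: `p = 2 q + 1` with an odd prime `q`, `K/k` cyclic of degree `q ^ r`,
`ζ + ζ⁻¹ ∈ K`. -/
def S_SG : Prop := ∀ (p q : ℕ) [Fact p.Prime], q.Prime → Odd q → p = 2 * q + 1 →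
  ∀ (k K : IntermediateField ℚ ℂ) (h : k ≤ K), ImQuadratic k → FinAb h →
  IsCyclic ((extendScalars h) ≃ₐ[k] (extendScalars h)) →
  (∃ r : ℕ, Module.finrank k (extendScalars h) = q ^ r) →
  ∀ ζ : ℂ, IsPrimitiveRoot ζ p → ζ + ζ⁻¹ ∈ K →
  ∀ (E : IntermediateField ℚ ℂ) (hE : k ≤ E), PGal p hE →
    MuLEC p (K ⊔ E) (k ⊔ adjoin ℚ {ζ + ζ⁻¹} ⊔ E)

end Pool.Agent.MuBr
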